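import Pool.Agent.W602.TL.Line

/-!
Entire curves in products of projective lines: the second main theorem for several functions with
common conditions for the multiplicities.
-/

set_option autoImplicit false
set_option linter.unusedSectionVars false

namespace Pool.Agent.H583_GP

open Filter Metric Real Set Topology Pool.Agent.H159R3.NV Pool.Agent.W602.NC Pool.Agent.W602.TL

/-- the pointwise estimate for one function -/
theorem pw_point {q : ℕ} (hq : 2 ≤ q) (a : Fin q → ℂ) (ha : Function.Injective a) :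
    ∃ K : ℝ, 1 ≤ K ∧ ∀ (F G W : ℂ) (E : ℝ), 0 ≤ E →
      (∀ j k, ‖(a j - a k) * W‖ ≤ E * (‖G - a j * F‖ * ‖G - a k * F‖)) →
      ∀ l, (∀ j, ‖G - a j * F‖ ≤ ‖G - a l * F‖) →
        ‖W‖ * ‖G - a l * F‖ ^ (q - 2) ≤ K * E * ∏ j, ‖G - a j * F‖ := by
  classical
  set K0 : ℝ := 1 + ∑ j, ∑ k, 1 / ‖a j - a k‖ +
    ∑ j, ∑ k, ∑ l, (‖a k - a l‖ + ‖a j - a l‖) / ‖a k - a j‖ with hK0
  have h1 : ∀ j k, 1 / ‖a j - a k‖ ≤ ∑ j, ∑ k, 1 / ‖a j - a k‖ := by
    intro j k
    have s1 := Finset.single_le_sum (f := fun k => 1 / ‖a j - a k‖)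
      (fun _ _ => by positivity) (Finset.mem_univ k)
    have s2 := Finset.single_le_sum (f := fun j => ∑ k, 1 / ‖a j - a k‖)
      (fun _ _ => Finset.sum_nonneg fun _ _ => by positivity) (Finset.mem_univ j)
    exact s1.trans s2
  have h2 : ∀ j k l, (‖a k - a l‖ + ‖a j - a l‖) / ‖a k - a j‖ ≤
      ∑ j, ∑ k, ∑ l, (‖a k - a l‖ + ‖a j - a l‖) / ‖a k - a j‖ := by
    intro j k l
    have s0 := Finset.single_le_sum (f := fun l => (‖a k - a l‖ + ‖a j - a l‖) / ‖a k - a j‖)
      (fun _ _ => by positivity) (Finset.mem_univ l)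
    have s1 := Finset.single_le_sum
      (f := fun k => ∑ l, (‖a k - a l‖ + ‖a j - a l‖) / ‖a k - a j‖)
      (fun _ _ => Finset.sum_nonneg fun _ _ => by positivity) (Finset.mem_univ k)
    have s2 := Finset.single_le_sum
      (f := fun j => ∑ k, ∑ l, (‖a k - a l‖ + ‖a j - a l‖) / ‖a k - a j‖)
      (fun _ _ => Finset.sum_nonneg fun _ _ => Finset.sum_nonneg fun _ _ => by positivity)
      (Finset.mem_univ j)
    exact s0.trans (s1.trans s2)
  have p1 : 0 ≤ ∑ j, ∑ k, 1 / ‖a j - a k‖ :=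
    Finset.sum_nonneg fun _ _ => Finset.sum_nonneg fun _ _ => by positivity
  have p2 : 0 ≤ ∑ j, ∑ k, ∑ l, (‖a k - a l‖ + ‖a j - a l‖) / ‖a k - a j‖ :=
    Finset.sum_nonneg fun _ _ => Finset.sum_nonneg fun _ _ => Finset.sum_nonneg fun _ _ => by
      positivity
  have hK1 : 1 ≤ K0 := by rw [hK0]; linarith
  have hK00 : 0 ≤ K0 := by linarith
  refine ⟨K0 * K0 ^ (q - 2), one_le_mul_of_one_le_of_one_le hK1 (one_le_pow₀ hK1), ?_⟩
  intro F G W E hE hW l hl
  set u : Fin q → ℝ := fun j => ‖G - a j * F‖ with hu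
  have hu0 : ∀ j, 0 ≤ u j := fun j => norm_nonneg _
  have hne : (Finset.univ : Finset (Fin q)).Nonempty := ⟨⟨0, by omega⟩, Finset.mem_univ _⟩
  obtain ⟨j0, -, hmin⟩ := Finset.exists_min_image Finset.univ u hne
  have hmin' : ∀ j, u j0 ≤ u j := fun j => hmin j (Finset.mem_univ j)
  obtain ⟨j1, hj1⟩ : ∃ j1 : Fin q, j1 ≠ j0 := by
    by_cases h : j0 = ⟨0, by omega⟩
    · exact ⟨⟨1, by omega⟩, by rw [h]; simp [Fin.ext_iff]⟩
    · exact ⟨⟨0, by omega⟩, fun h' => h h'.symm⟩
  have hbig : ∀ j, j ≠ j0 → u l ≤ K0 * u j := by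
    intro j hj
    have hd : a j - a j0 ≠ 0 := sub_ne_zero.2 fun h => hj (ha h)
    have hdp : 0 < ‖a j - a j0‖ := norm_pos_iff.2 hd
    have e1 : (a j - a j0) * (G - a l * F) =
        (a j - a l) * (G - a j0 * F) - (a j0 - a l) * (G - a j * F) := by ring
    have e2 : ‖a j - a j0‖ * u l ≤ (‖a j - a l‖ + ‖a j0 - a l‖) * u j := by
      calc ‖a j - a j0‖ * u l = ‖(a j - a j0) * (G - a l * F)‖ := by rw [norm_mul]
        _ ≤ ‖(a j - a l) * (G - a j0 * F)‖ + ‖(a j0 - a l) * (G - a j * F)‖ := by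
            rw [e1]; exact norm_sub_le _ _
        _ = ‖a j - a l‖ * u j0 + ‖a j0 - a l‖ * u j := by rw [norm_mul, norm_mul]
        _ ≤ ‖a j - a l‖ * u j + ‖a j0 - a l‖ * u j := by
            have := hmin' j
            gcongr
        _ = _ := by ring
    have e3 : u l ≤ (‖a j - a l‖ + ‖a j0 - a l‖) / ‖a j - a j0‖ * u j := by
      rw [div_mul_eq_mul_div, le_div_iff₀ hdp]
      linarith
    refine e3.trans (mul_le_mul_of_nonneg_right ?_ (hu0 j))
    have := h2 j0 j l
    rw [hK0]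
    linarith
  have hw : ‖W‖ ≤ K0 * E * (u j0 * u j1) := by
    have hd : a j0 - a j1 ≠ 0 := sub_ne_zero.2 fun h => hj1 (ha h).symm
    have hdp : 0 < ‖a j0 - a j1‖ := norm_pos_iff.2 hd
    have e1 := hW j0 j1
    rw [norm_mul] at e1
    have e2 : ‖W‖ ≤ 1 / ‖a j0 - a j1‖ * (E * (u j0 * u j1)) := by
      rw [div_mul_eq_mul_div, le_div_iff₀ hdp, one_mul]
      linarith
    refine e2.trans ?_
    rw [mul_assoc]
    refine mul_le_mul_of_nonneg_right ?_ (by have := hu0 j0; have := hu0 j1; positivity)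
    have := h1 j0 j1
    rw [hK0]
    linarith
  have hprod : u l ^ (q - 2) * (u j0 * u j1) ≤ K0 ^ (q - 2) * ∏ j, u j := by
    have hc : ((Finset.univ.erase j0).erase j1).card = q - 2 := by
      rw [Finset.card_erase_of_mem (Finset.mem_erase.2 ⟨hj1, Finset.mem_univ _⟩),
        Finset.card_erase_of_mem (Finset.mem_univ _), Finset.card_univ, Fintype.card_fin]
      omega
    have e1 : ∏ j, u j = u j0 * (u j1 * ∏ j ∈ (Finset.univ.erase j0).erase j1, u j) := by
      rw [Finset.mul_prod_erase _ _ (Finset.mem_erase.2 ⟨hj1, Finset.mem_univ _⟩),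
        Finset.mul_prod_erase _ _ (Finset.mem_univ _)]
    have e2 : u l ^ (q - 2) ≤ K0 ^ (q - 2) * ∏ j ∈ (Finset.univ.erase j0).erase j1, u j := by
      rw [← hc, ← Finset.prod_const, ← Finset.prod_const, ← Finset.prod_mul_distrib]
      refine Finset.prod_le_prod (fun _ _ => hu0 l) fun j hj => ?_
      exact hbig j (Finset.ne_of_mem_erase (Finset.mem_of_mem_erase hj))
    rw [e1]
    have := hu0 j0
    have := hu0 j1
    calc u l ^ (q - 2) * (u j0 * u j1)
        ≤ (K0 ^ (q - 2) * ∏ j ∈ (Finset.univ.erase j0).erase j1, u j) * (u j0 * u j1) := by gcongr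
      _ = _ := by ring
  calc ‖W‖ * u l ^ (q - 2) ≤ (K0 * E * (u j0 * u j1)) * u l ^ (q - 2) := by
        have := hu0 l
        gcongr
    _ = K0 * E * (u l ^ (q - 2) * (u j0 * u j1)) := by ring
    _ ≤ K0 * E * (K0 ^ (q - 2) * ∏ j, u j) := by gcongr
    _ = _ := by ring

section

variable {ι : Type} [Fintype ι] [DecidableEq ι] {q : ι → ℕ}

/-- the number of choice functions with a given value -/
def cnt (q : ι → ℕ) (i : ι) (j : Fin (q i)) : ℕ :=
  (Finset.univ.filter fun J : (∀ i, Fin (q i)) => J i = j).card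

theorem prod_cnt {M : Type*} [CommMonoid M] (F : ∀ i, Fin (q i) → M) :
    ∏ J : (∀ i, Fin (q i)), ∏ i, F i (J i) = ∏ i, ∏ j, F i j ^ cnt q i j := by
  rw [Finset.prod_comm]
  refine Finset.prod_congr rfl fun i _ => ?_
  rw [← Finset.prod_fiberwise_of_maps_to (s := Finset.univ) (t := Finset.univ)
    (g := fun J : (∀ i, Fin (q i)) => J i) (fun _ _ => Finset.mem_univ _)]
  refine Finset.prod_congr rfl fun j _ => ?_
  rw [cnt, ← Finset.prod_const]
  refine Finset.prod_congr rfl fun J hJ => ?_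
  rw [(Finset.mem_filter.1 hJ).2]

theorem sum_cnt (F : ∀ i, Fin (q i) → ℕ) :
    ∑ J : (∀ i, Fin (q i)), ∑ i, F i (J i) = ∑ i, ∑ j, cnt q i j * F i j := by
  have h := prod_cnt (M := Multiplicative ℕ) (q := q) fun i j => Multiplicative.ofAdd (F i j)
  have h1 := congrArg Multiplicative.toAdd h
  simp only [toAdd_prod, toAdd_ofAdd, toAdd_pow, smul_eq_mul] at h1
  exact h1

theorem exists_J (hq : ∀ i, 0 < q i) (i : ι) (j : Fin (q i)) : ∃ J : (∀ i, Fin (q i)), J i = j :=
  ⟨Function.update (fun i => ⟨0, hq i⟩) i j, by simp⟩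

theorem cnt_pos (hq : ∀ i, 0 < q i) (i : ι) (j : Fin (q i)) : 1 ≤ cnt q i j := by
  obtain ⟨J, hJ⟩ := exists_J hq i j
  exact Finset.card_pos.2 ⟨J, Finset.mem_filter.2 ⟨Finset.mem_univ _, hJ⟩⟩

/-- the linear forms -/
def ell (a : ∀ i, Fin (q i) → ℂ) (f g : ι → ℂ → ℂ) (i : ι) (j : Fin (q i)) (z : ℂ) : ℂ :=
  g i z - a i j * f i z

/-- the Wronskians -/
noncomputable def Wr (f g : ι → ℂ → ℂ) (i : ι) (z : ℂ) : ℂ :=
  f i z * deriv (g i) z - deriv (f i) z * g i z

/-- a system of functions with the conditions for the multiplicities -/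
structure Sys (a : ∀ i, Fin (q i) → ℂ) (α : ι → ℕ) (β : ∀ i, Fin (q i) → ℕ)
    (f g : ι → ℂ → ℂ) : Prop where
  hf : ∀ i, Differentiable ℂ (f i)
  hg : ∀ i, Differentiable ℂ (g i)
  nz : ∀ i z, f i z ≠ 0 ∨ g i z ≠ 0
  ne : ∀ i j, ∃ z, ell a f g i j z ≠ 0
  ord : ∀ z (k : ∀ i, Fin (q i) → ℕ), (∀ i j, analyticOrderAt (ell a f g i j) z = k i j) →
    ∑ i, (if k i = 0 then 0 else α i) ≤ ∑ i, ∑ j, β i j * k i j

variable {a : ∀ i, Fin (q i) → ℂ} {α : ι → ℕ} {β : ∀ i, Fin (q i) → ℕ} {f g : ι → ℂ → ℂ}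

theorem Sys.diff (S : Sys a α β f g) (i : ι) (j : Fin (q i)) :
    Differentiable ℂ (ell a f g i j) := (S.hg i).sub ((S.hf i).const_mul _)

theorem Sys.wdiff (S : Sys a α β f g) (i : ι) : Differentiable ℂ (Wr f g i) :=
  ((S.hf i).mul (S.hg i).deriv).sub ((S.hf i).deriv.mul (S.hg i))

/-- at most one form vanishes -/
theorem Sys.one (S : Sys a α β f g) (ha : ∀ i, Function.Injective (a i)) {i : ι}
    {j j' : Fin (q i)} {z : ℂ} (h : ell a f g i j z = 0) (h' : ell a f g i j' z = 0) : j = j' := by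
  by_contra hne
  have hd : a i j - a i j' ≠ 0 := sub_ne_zero.2 fun h => hne (ha i h)
  unfold ell at h h'
  have h1 : (a i j - a i j') * f i z = 0 := by linear_combination h' - h
  have h2 : f i z = 0 := (mul_eq_zero.1 h1).resolve_left hd
  have h3 : g i z = 0 := by linear_combination h + a i j * h2
  exact (S.nz i z).elim (fun h => h h2) (fun h => h h3)

/-- the Wronskian in terms of a form -/
theorem Sys.wr_ell (S : Sys a α β f g) (i : ι) (j : Fin (q i)) (z : ℂ) :
    Wr f g i z = f i z * deriv (ell a f g i j) z - deriv (f i) z * ell a f g i j z := by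
  have h1 : deriv (ell a f g i j) z = deriv (g i) z - a i j * deriv (f i) z := by
    have h2 := ((S.hg i z).hasDerivAt.sub ((S.hf i z).hasDerivAt.const_mul (a i j))).deriv
    exact h2
  rw [h1]
  unfold Wr ell
  ring

/-- the Wronskian of two forms -/
theorem Sys.wr_pair' (S : Sys a α β f g) (i : ι) (j k : Fin (q i)) (z : ℂ) :
    ell a f g i j z * deriv (ell a f g i k) z - deriv (ell a f g i j) z * ell a f g i k z =
      (a i k - a i j) * Wr f g i z := by
  have h1 : ∀ j, deriv (ell a f g i j) z = deriv (g i) z - a i j * deriv (f i) z := fun j =>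
    ((S.hg i z).hasDerivAt.sub ((S.hf i z).hasDerivAt.const_mul (a i j))).deriv
  rw [h1, h1]
  unfold Wr ell
  ring

theorem Sys.wr_order (S : Sys a α β f g) (i : ι) (j : Fin (q i)) (z : ℂ) {k : ℕ}
    (hk : analyticOrderAt (ell a f g i j) z = k) :
    ((k - 1 : ℕ) : ℕ∞) ≤ analyticOrderAt (Wr f g i) z := by
  have hell := (S.diff i j).analyticAt z
  have h1 : ((k - 1 : ℕ) : ℕ∞) ≤ analyticOrderAt (deriv (ell a f g i j)) z := by
    have h2 := ord_deriv hell
    rw [hk] at h2
    rw [ENat.natCast_sub, Nat.cast_one, tsub_le_iff_right]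
    exact h2
  have h3 : ((k - 1 : ℕ) : ℕ∞) ≤ analyticOrderAt (ell a f g i j) z := by
    rw [hk]
    exact_mod_cast Nat.sub_le _ _
  have e : Wr f g i = (f i * deriv (ell a f g i j)) - (deriv (f i) * ell a f g i j) := by
    funext w
    exact S.wr_ell i j w
  rw [e]
  have hfa := (S.hf i).analyticAt z
  have hfd := (S.hf i).deriv.analyticAt z
  have hed := (S.diff i j).deriv.analyticAt z
  refine ord_sub_ge (N := ((k - 1 : ℕ) : ℕ∞)) ?_ ?_
  · rw [analyticOrderAt_mul hfa hed]
    exact h1.trans (self_le_add_left _ _)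
  · rw [analyticOrderAt_mul hfd hell]
    exact h3.trans (self_le_add_left _ _)

/-- the auxiliary function -/
noncomputable def PP (a : ∀ i, Fin (q i) → ℂ) (A : ι → ℕ) (γ : ∀ i, Fin (q i) → ℕ)
    (f g : ι → ℂ → ℂ) (z : ℂ) : ℂ := ∏ i, (Wr f g i z ^ A i * ∏ j, ell a f g i j z ^ γ i j)

theorem Sys.PPdiff (S : Sys a α β f g) (A : ι → ℕ) (γ : ∀ i, Fin (q i) → ℕ) :
    Differentiable ℂ (PP a A γ f g) :=
  Differentiable.fun_finsetProd fun i _ => ((S.wdiff i).pow _).mul
    (Differentiable.fun_finsetProd fun j _ => (S.diff i j).pow _)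

/-- the products of the linear forms -/
def HH {p : ℕ} (e : Fin (p + 1) ≃ (∀ i, Fin (q i))) (a : ∀ i, Fin (q i) → ℂ)
    (f g : ι → ℂ → ℂ) (t : Fin (p + 1)) (z : ℂ) : ℂ := ∏ i, ell a f g i (e t i) z

theorem Sys.HHdiff (S : Sys a α β f g) {p : ℕ} (e : Fin (p + 1) ≃ (∀ i, Fin (q i)))
    (t : Fin (p + 1)) : Differentiable ℂ (HH e a f g t) :=
  Differentiable.fun_finsetProd fun i _ => S.diff i _

/-- the orders -/
theorem Sys.hord (S : Sys a α β f g) (ha : ∀ i, Function.Injective (a i)) (hq : ∀ i, 0 < q i)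
    {p : ℕ} (e : Fin (p + 1) ≃ (∀ i, Fin (q i))) {D c : ℕ} {A : ι → ℕ} (hA : ∀ i, A i ≤ D * α i)
    (hc : ∀ i, A i ≤ c) (z : ℂ) :
    analyticOrderAt (fun z => ∏ t, HH e a f g t z ^ c) z ≤
      analyticOrderAt (PP a A (fun i j => D * β i j + (c * cnt q i j - A i)) f g) z := by
  have hk0 : ∀ i j, ∃ k : ℕ, analyticOrderAt (ell a f g i j) z = k := fun i j =>
    ⟨_, ord_fin (S.diff i j) (S.ne i j) z⟩
  choose k hk using hk0
  have hel : ∀ i j, AnalyticAt ℂ (ell a f g i j) z := fun i j => (S.diff i j).analyticAt z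
  have hwa : ∀ i, AnalyticAt ℂ (Wr f g i) z := fun i => (S.wdiff i).analyticAt z
  -- the left hand side
  have hL : analyticOrderAt (fun z => ∏ t, HH e a f g t z ^ c) z =
      ((c * ∑ i, ∑ j, cnt q i j * k i j : ℕ) : ℕ∞) := by
    rw [ord_prod _ (fun t z => HH e a f g t z ^ c) z
      (fun t _ => ((S.HHdiff e t).analyticAt z).pow c)]
    have h1 : ∀ t, analyticOrderAt (fun z => HH e a f g t z ^ c) z =
        ((c * ∑ i, k i (e t i) : ℕ) : ℕ∞) := by
      intro t
      have e1 : (fun z => HH e a f g t z ^ c) = HH e a f g t ^ c := rfl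
      rw [e1, analyticOrderAt_pow ((S.HHdiff e t).analyticAt z)]
      have e2 : analyticOrderAt (HH e a f g t) z = ((∑ i, k i (e t i) : ℕ) : ℕ∞) := by
        have e3 : HH e a f g t = fun z => ∏ i, ell a f g i (e t i) z := rfl
        rw [e3, ord_prod _ (fun i z => ell a f g i (e t i) z) z (fun i _ => hel i _)]
        push_cast
        exact Finset.sum_congr rfl fun i _ => hk i _
      rw [e2, nsmul_eq_mul]
      push_cast
      rfl
    rw [Finset.sum_congr rfl fun t _ => h1 t]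
    rw [← sum_cnt, ← e.sum_comp (fun J => ∑ i, k i (J i)), Finset.mul_sum]
    push_cast
    rfl
  rw [hL]
  -- the right hand side
  have hone : ∀ i j j', k i j ≠ 0 → k i j' ≠ 0 → j = j' := by
    intro i j j' h h'
    apply S.one ha (z := z)
    · by_contra h0
      have := (hel i j).analyticOrderAt_eq_zero.2 h0
      rw [hk i j] at this
      exact h (by exact_mod_cast this)
    · by_contra h0
      have := (hel i j').analyticOrderAt_eq_zero.2 h0
      rw [hk i j'] at this
      exact h' (by exact_mod_cast this)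
  have hsum : ∀ i, ∑ j, k i j = ∑ j, (k i j - 1) + (if k i = 0 then 0 else 1) := by
    intro i
    split_ifs with h0
    · rw [h0]
      simp
    · obtain ⟨j, hj⟩ := Function.ne_iff.1 h0
      have hj' : k i j ≠ 0 := hj
      have hz : ∀ j', j' ≠ j → k i j' = 0 := by
        intro j' hne
        by_contra h1
        exact hne (hone i j' j h1 hj')
      rw [Finset.sum_eq_single j (fun j' _ hne => hz j' hne) (fun h => absurd (Finset.mem_univ _) h),
        Finset.sum_eq_single j (fun j' _ hne => by rw [hz j' hne, Nat.zero_sub])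
          (fun h => absurd (Finset.mem_univ _) h)]
      omega
  have hw : ∀ i, ((∑ j, (k i j - 1) : ℕ) : ℕ∞) ≤ analyticOrderAt (Wr f g i) z := by
    intro i
    by_cases h0 : k i = 0
    · rw [h0]
      simp
    · obtain ⟨j, hj⟩ := Function.ne_iff.1 h0
      have hj' : k i j ≠ 0 := hj
      rw [Finset.sum_eq_single j (fun j' _ hne => by
        have : k i j' = 0 := by
          by_contra h1
          exact hne (hone i j' j h1 hj')
        rw [this, Nat.zero_sub]) (fun h => absurd (Finset.mem_univ _) h)]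
      exact S.wr_order i j z (hk i j)
  have hR : ((∑ i, (A i * ∑ j, (k i j - 1) + ∑ j, (D * β i j + (c * cnt q i j - A i)) * k i j)
      : ℕ) : ℕ∞) ≤ analyticOrderAt (PP a A (fun i j => D * β i j + (c * cnt q i j - A i)) f g) z := by
    have e1 : PP a A (fun i j => D * β i j + (c * cnt q i j - A i)) f g = fun z => ∏ i,
      (Wr f g i z ^ A i * ∏ j, ell a f g i j z ^ (D * β i j + (c * cnt q i j - A i))) := rfl
    have hpa : ∀ i, AnalyticAt ℂ (fun z => ∏ j, ell a f g i j z ^
        (D * β i j + (c * cnt q i j - A i))) z := fun i =>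
      (Differentiable.fun_finsetProd fun j _ => (S.diff i j).pow _).analyticAt z
    rw [e1, ord_prod _ (fun i z => Wr f g i z ^ A i * ∏ j, ell a f g i j z ^
      (D * β i j + (c * cnt q i j - A i))) z (fun i _ => ((hwa i).pow _).mul (hpa i))]
    push_cast
    refine Finset.sum_le_sum fun i _ => ?_
    have e2 : (fun z => Wr f g i z ^ A i * ∏ j, ell a f g i j z ^
      (D * β i j + (c * cnt q i j - A i))) = (Wr f g i ^ A i) * fun z => ∏ j, ell a f g i j z ^
      (D * β i j + (c * cnt q i j - A i)) := rfl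
    rw [e2, analyticOrderAt_mul ((hwa i).pow _) (hpa i), analyticOrderAt_pow (hwa i)]
    refine add_le_add ?_ ?_
    · rw [nsmul_eq_mul]
      have := hw i
      push_cast at this
      gcongr
    · rw [ord_prod _ (fun j z => ell a f g i j z ^ (D * β i j + (c * cnt q i j - A i))) z
        (fun j _ => (hel i j).pow _)]
      refine Finset.sum_le_sum fun j _ => ?_
      have e3 : (fun z => ell a f g i j z ^ (D * β i j + (c * cnt q i j - A i))) =
        ell a f g i j ^ (D * β i j + (c * cnt q i j - A i)) := rfl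
      rw [e3, analyticOrderAt_pow (hel i j), hk i j, nsmul_eq_mul]
      push_cast
      exact le_rfl
  refine le_trans ?_ hR
  -- the numbers
  have hS := S.ord z k hk
  have hi : ∀ i, A i * ∑ j, (k i j - 1) + ∑ j, (D * β i j + (c * cnt q i j - A i)) * k i j +
      (if k i = 0 then 0 else A i) = D * ∑ j, β i j * k i j + c * ∑ j, cnt q i j * k i j := by
    intro i
    have h1 : ∑ j, (D * β i j + (c * cnt q i j - A i)) * k i j + A i * ∑ j, k i j =
        D * ∑ j, β i j * k i j + c * ∑ j, cnt q i j * k i j := by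
      rw [Finset.mul_sum, Finset.mul_sum, Finset.mul_sum, ← Finset.sum_add_distrib,
        ← Finset.sum_add_distrib]
      refine Finset.sum_congr rfl fun j _ => ?_
      have h2 : A i ≤ c * cnt q i j := (hc i).trans (Nat.le_mul_of_pos_right _ (cnt_pos hq i j))
      obtain ⟨s, hs⟩ := Nat.exists_eq_add_of_le h2
      rw [hs, Nat.add_sub_cancel_left]
      have h3 : c * (cnt q i j * k i j) = (A i + s) * k i j := by rw [← mul_assoc, hs]
      rw [h3]
      ring
    have h2 := hsum i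
    have h3 : A i * ∑ j, k i j = A i * ∑ j, (k i j - 1) + (if k i = 0 then 0 else A i) := by
      rw [h2, mul_add]
      split_ifs <;> simp
    omega
  have htot : ∑ i, (A i * ∑ j, (k i j - 1) + ∑ j, (D * β i j + (c * cnt q i j - A i)) * k i j) +
      ∑ i, (if k i = 0 then 0 else A i) =
      D * ∑ i, ∑ j, β i j * k i j + c * ∑ i, ∑ j, cnt q i j * k i j := by
    rw [← Finset.sum_add_distrib, Finset.mul_sum, Finset.mul_sum, ← Finset.sum_add_distrib]
    exact Finset.sum_congr rfl fun i _ => hi i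
  have hle : ∑ i, (if k i = 0 then 0 else A i) ≤ D * ∑ i, ∑ j, β i j * k i j := by
    refine le_trans ?_ (Nat.mul_le_mul_left D hS)
    rw [Finset.mul_sum]
    refine Finset.sum_le_sum fun i _ => ?_
    split_ifs
    · simp
    · exact hA i
  have hfin : c * ∑ i, ∑ j, cnt q i j * k i j ≤
      ∑ i, (A i * ∑ j, (k i j - 1) + ∑ j, (D * β i j + (c * cnt q i j - A i)) * k i j) := by
    omega
  exact_mod_cast hfin

end

end Pool.Agent.H583_GP
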