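import Pool.Agent.H583_GP.Ana

/-!
Entire curves in products of projective lines: there are none whose multiplicities satisfy the
numerical conditions.
-/

set_option autoImplicit false
set_option linter.unusedSectionVars false

namespace Pool.Agent.H583_GP

open Filter Metric Real Set Topology Pool.Agent.H159R3.NV Pool.Agent.W602.NC Pool.Agent.W602.TL

variable {ι : Type} [Fintype ι] [DecidableEq ι] {q : ι → ℕ}
variable {a : ∀ i, Fin (q i) → ℂ} {α : ι → ℕ} {β : ∀ i, Fin (q i) → ℕ} {f g : ι → ℂ → ℂ}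

theorem HH_update {p : ℕ} (e : Fin (p + 1) ≃ (∀ i, Fin (q i))) {i : ι} {j k : Fin (q i)}
    {J : ∀ i, Fin (q i)} (hJ : J i = j) {w : ℂ} (hw : ∀ i j, ell a f g i j w ≠ 0) :
    HH e a f g (e.symm (Function.update J i k)) w / HH e a f g (e.symm J) w =
      ell a f g i k w / ell a f g i j w := by
  unfold HH
  rw [e.apply_symm_apply, e.apply_symm_apply, ← Finset.prod_div_distrib]
  rw [Finset.prod_eq_single i]
  · rw [Function.update_self, hJ]
  · intro i' _ hne
    rw [Function.update_of_ne hne, div_self (hw _ _)]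
  · intro h
    exact absurd (Finset.mem_univ _) h

theorem good_ne {p : ℕ} {e : Fin (p + 1) ≃ (∀ i, Fin (q i))} (hq : ∀ i, 0 < q i) {z : ℂ} {ε : ℝ}
    (h : GoodAt (HH e a f g) z ε) {w : ℂ} (hw : w ∈ closedBall z ε) (i : ι) (j : Fin (q i)) :
    ell a f g i j w ≠ 0 := by
  obtain ⟨J, hJ⟩ := exists_J hq i j
  have h1 := h.1 (e.symm J) w hw
  unfold HH at h1
  rw [e.apply_symm_apply] at h1
  have h2 := Finset.prod_ne_zero_iff.1 h1 i (Finset.mem_univ i)
  rwa [hJ] at h2

/-- the pointwise estimate -/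
theorem hpt (ha : ∀ i, Function.Injective (a i)) (hq : ∀ i, 2 ≤ q i) {p : ℕ}
    (e : Fin (p + 1) ≃ (∀ i, Fin (q i))) {D c : ℕ} {A : ι → ℕ}
    (hAD : ∀ i, A i * (q i - 2) = D * (∑ j, β i j) + D) (hc : ∀ i, A i ≤ c) :
    ∃ (C : ℝ) (d : ℕ), 1 ≤ C ∧ ∀ f g, Sys a α β f g → ∀ z ε, 0 < ε → ε ≤ 1 →
      GoodAt (HH e a f g) z ε →
      ‖PP a A (fun i j => D * β i j + (c * cnt q i j - A i)) f g z‖ * sup (HH e a f g) z ^ D ≤
        C * (1 / ε) ^ d * ∏ t, ‖HH e a f g t z‖ ^ c := by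
  have hq0 : ∀ i, 0 < q i := fun i => lt_of_lt_of_le Nat.zero_lt_two (hq i)
  choose K hK1 hK using fun i => pw_point (hq i) (a i) (ha i)
  have he1 : (1 : ℝ) ≤ Real.exp 1 := Real.one_le_exp zero_le_one
  refine ⟨∏ i, (K i * Real.exp 1) ^ A i, ∑ i, A i, ?_, ?_⟩
  · refine Finset.one_le_prod fun i _ => one_le_pow₀ ?_
    exact one_le_mul_of_one_le_of_one_le (hK1 i) he1
  intro f g S z ε hε hε1 hgood
  have hzz : z ∈ closedBall z ε := mem_closedBall_self hε.le
  set u : ∀ i, Fin (q i) → ℝ := fun i j => ‖ell a f g i j z‖ with hu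
  have hup : ∀ i j, 0 < u i j := fun i j => norm_pos_iff.2 (good_ne hq0 hgood hzz i j)
  have hmax : ∀ i, ∃ l, ∀ j, u i j ≤ u i l := by
    intro i
    have hne : (Finset.univ : Finset (Fin (q i))).Nonempty := ⟨⟨0, hq0 i⟩, Finset.mem_univ _⟩
    obtain ⟨l, -, hl⟩ := Finset.exists_max_image Finset.univ (u i) hne
    exact ⟨l, fun j => hl j (Finset.mem_univ j)⟩
  choose l hl using hmax
  have hratio : ∀ i j k, ∀ w ∈ closedBall z ε,
      ‖ell a f g i k w / ell a f g i j w‖ ≤ Real.exp 1 * ‖ell a f g i k z / ell a f g i j z‖ := by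
    intro i j k w hw
    obtain ⟨J, hJ⟩ := exists_J hq0 i j
    have h1 := hgood.2 (e.symm J) (e.symm (Function.update J i k)) w hw
    rw [HH_update e hJ fun i j => good_ne hq0 hgood hw i j,
      HH_update e hJ fun i j => good_ne hq0 hgood hzz i j] at h1
    exact h1
  have hwr : ∀ i j k, ‖(a i j - a i k) * Wr f g i z‖ ≤
      (Real.exp 1 * (1 / ε)) * (u i j * u i k) := by
    intro i j k
    have h1 := wr_pair (S.diff i j) (S.diff i k) hε (fun w hw => good_ne hq0 hgood hw i j)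
      (fun w hw => hratio i j k w hw)
    rw [S.wr_pair'] at h1
    have h2 : ‖(a i j - a i k) * Wr f g i z‖ = ‖(a i k - a i j) * Wr f g i z‖ := by
      rw [norm_mul, norm_mul, norm_sub_rev]
    rw [h2]
    exact h1
  have hE : 0 ≤ Real.exp 1 * (1 / ε) := by positivity
  have hpw : ∀ i, ‖Wr f g i z‖ * u i (l i) ^ (q i - 2) ≤
      K i * (Real.exp 1 * (1 / ε)) * ∏ j, u i j := fun i =>
    hK i (f i z) (g i z) (Wr f g i z) _ hE (hwr i) (l i) (hl i)
  have hsup : sup (HH e a f g) z ≤ ∏ i, u i (l i) := by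
    obtain ⟨t, ht⟩ := sup_attained (HH e a f g) z
    rw [ht]
    unfold HH
    rw [norm_prod]
    exact Finset.prod_le_prod (fun _ _ => norm_nonneg _) fun i _ => hl i _
  have hsup0 : 0 ≤ sup (HH e a f g) z := (norm_nonneg _).trans (le_sup (HH e a f g) z 0)
  have hfac : ∀ i, (‖Wr f g i z‖ ^ A i * ∏ j, u i j ^ (D * β i j + (c * cnt q i j - A i))) *
      u i (l i) ^ D ≤ (K i * (Real.exp 1 * (1 / ε))) ^ A i * ∏ j, u i j ^ (c * cnt q i j) := by
    intro i
    have hM := hup i (l i)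
    have hP0 : 0 ≤ ∏ j, u i j ^ (c * cnt q i j - A i) :=
      Finset.prod_nonneg fun j _ => pow_nonneg (hup i j).le _
    have hPu : 0 ≤ ∏ j, u i j := Finset.prod_nonneg fun j _ => (hup i j).le
    have h1 : ∏ j, u i j ^ (D * β i j) ≤ u i (l i) ^ (D * ∑ j, β i j) := by
      rw [Finset.mul_sum, ← Finset.prod_pow_eq_pow_sum]
      exact Finset.prod_le_prod (fun j _ => pow_nonneg (hup i j).le _) fun j _ =>
        pow_le_pow_left₀ (hup i j).le (hl i j) _
    calc (‖Wr f g i z‖ ^ A i * ∏ j, u i j ^ (D * β i j + (c * cnt q i j - A i))) * u i (l i) ^ D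
        = ‖Wr f g i z‖ ^ A i * ((∏ j, u i j ^ (D * β i j)) * u i (l i) ^ D) *
          ∏ j, u i j ^ (c * cnt q i j - A i) := by
          simp only [pow_add, Finset.prod_mul_distrib]
          ring
      _ ≤ ‖Wr f g i z‖ ^ A i * (u i (l i) ^ (D * ∑ j, β i j) * u i (l i) ^ D) *
          ∏ j, u i j ^ (c * cnt q i j - A i) := by gcongr
      _ = (‖Wr f g i z‖ * u i (l i) ^ (q i - 2)) ^ A i *
          ∏ j, u i j ^ (c * cnt q i j - A i) := by
          rw [← pow_add, ← hAD i, mul_pow, ← pow_mul, mul_comm (q i - 2)]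
      _ ≤ (K i * (Real.exp 1 * (1 / ε)) * ∏ j, u i j) ^ A i *
          ∏ j, u i j ^ (c * cnt q i j - A i) := by
          have := hpw i
          gcongr
      _ = (K i * (Real.exp 1 * (1 / ε))) ^ A i * ∏ j, u i j ^ (c * cnt q i j) := by
          rw [mul_pow, mul_assoc, ← Finset.prod_pow, ← Finset.prod_mul_distrib]
          congr 1
          refine Finset.prod_congr rfl fun j _ => ?_
          rw [← pow_add]
          congr 1
          have : A i ≤ c * cnt q i j := (hc i).trans (Nat.le_mul_of_pos_right _ (cnt_pos hq0 i j))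
          omega
  have hPP : ‖PP a A (fun i j => D * β i j + (c * cnt q i j - A i)) f g z‖ =
      ∏ i, (‖Wr f g i z‖ ^ A i * ∏ j, u i j ^ (D * β i j + (c * cnt q i j - A i))) := by
    unfold PP
    rw [norm_prod]
    refine Finset.prod_congr rfl fun i _ => ?_
    rw [norm_mul, norm_pow, norm_prod]
    congr 1
    exact Finset.prod_congr rfl fun j _ => norm_pow _ _
  have hHH : ∏ t, ‖HH e a f g t z‖ ^ c = ∏ i, ∏ j, u i j ^ (c * cnt q i j) := by
    have h1 : ∀ t, ‖HH e a f g t z‖ ^ c = ∏ i, u i (e t i) ^ c := by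
      intro t
      unfold HH
      rw [norm_prod, Finset.prod_pow]
    rw [Finset.prod_congr rfl fun t _ => h1 t,
      e.prod_comp (fun J => ∏ i, u i (J i) ^ c), prod_cnt fun i j => u i j ^ c]
    simp only [← pow_mul]
  rw [hPP, hHH]
  calc _ ≤ (∏ i, (‖Wr f g i z‖ ^ A i * ∏ j, u i j ^ (D * β i j + (c * cnt q i j - A i)))) *
        (∏ i, u i (l i)) ^ D := by
        refine mul_le_mul_of_nonneg_left (pow_le_pow_left₀ hsup0 hsup D) ?_
        exact Finset.prod_nonneg fun i _ => mul_nonneg (by positivity)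
          (Finset.prod_nonneg fun j _ => pow_nonneg (hup i j).le _)
    _ = ∏ i, ((‖Wr f g i z‖ ^ A i * ∏ j, u i j ^ (D * β i j + (c * cnt q i j - A i))) *
        u i (l i) ^ D) := by rw [← Finset.prod_pow, ← Finset.prod_mul_distrib]
    _ ≤ ∏ i, ((K i * (Real.exp 1 * (1 / ε))) ^ A i * ∏ j, u i j ^ (c * cnt q i j)) := by
        refine Finset.prod_le_prod (fun i _ => ?_) fun i _ => hfac i
        exact mul_nonneg (mul_nonneg (by positivity)
          (Finset.prod_nonneg fun j _ => pow_nonneg (hup i j).le _)) (pow_nonneg (hup i _).le _)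
    _ = (∏ i, (K i * Real.exp 1) ^ A i) * (1 / ε) ^ (∑ i, A i) *
        ∏ i, ∏ j, u i j ^ (c * cnt q i j) := by
        rw [Finset.prod_mul_distrib]
        congr 1
        rw [← Finset.prod_pow_eq_pow_sum, ← Finset.prod_mul_distrib]
        refine Finset.prod_congr rfl fun i _ => ?_
        rw [← mul_pow, mul_assoc]

theorem ord_comp_ex (h : ℂ → ℂ) (z0 z : ℂ) :
    analyticOrderAt (fun w => h (ex z0 w)) z = analyticOrderAt h (ex z0 z) := by
  have e1 : (fun w => h (ex z0 w)) = h ∘ ex z0 := rfl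
  rw [e1, analyticOrderAt_comp_of_deriv_ne_zero ((ex_diff z0).analyticAt z)]
  rw [ex_deriv]
  exact ex_ne z0 z

theorem Sys.comp (S : Sys a α β f g) (z0 : ℂ) (h : ∀ i j, ell a f g i j (ex z0 0) ≠ 0) :
    Sys a α β (fun i z => f i (ex z0 z)) (fun i z => g i (ex z0 z)) where
  hf i := (S.hf i).comp (ex_diff z0)
  hg i := (S.hg i).comp (ex_diff z0)
  nz i z := S.nz i _
  ne i j := ⟨0, h i j⟩
  ord z k hk := S.ord (ex z0 z) k fun i j => by
    rw [← hk i j]
    exact (ord_comp_ex (ell a f g i j) z0 z).symm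

theorem Wr_comp (S : Sys a α β f g) (z0 z : ℂ) (i : ι) :
    Wr (fun i z => f i (ex z0 z)) (fun i z => g i (ex z0 z)) i z =
      ex z0 z * Wr f g i (ex z0 z) := by
  have h1 : ∀ h : ℂ → ℂ, Differentiable ℂ h →
      deriv (fun z => h (ex z0 z)) z = deriv h (ex z0 z) * ex z0 z := by
    intro h hh
    have h2 : HasDerivAt (ex z0) (ex z0 z) z := by
      have := ((ex_diff z0) z).hasDerivAt
      rwa [ex_deriv] at this
    exact ((hh (ex z0 z)).hasDerivAt.comp z h2).deriv
  unfold Wr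
  rw [h1 _ (S.hf i), h1 _ (S.hg i)]
  ring

theorem PP_comp (S : Sys a α β f g) (A : ι → ℕ) (γ : ∀ i, Fin (q i) → ℕ) (z0 z : ℂ) :
    PP a A γ (fun i z => f i (ex z0 z)) (fun i z => g i (ex z0 z)) z =
      ex z0 z ^ (∑ i, A i) * PP a A γ f g (ex z0 z) := by
  unfold PP
  rw [← Finset.prod_pow_eq_pow_sum, ← Finset.prod_mul_distrib]
  refine Finset.prod_congr rfl fun i _ => ?_
  rw [Wr_comp S, mul_pow, mul_assoc]
  rfl

/-- **There are no entire curves with the conditions for the multiplicities.** -/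
theorem no_curves [Nonempty ι] (ha : ∀ i, Function.Injective (a i)) (hq : ∀ i, 3 ≤ q i)
    (hαβ : ∀ i, ∑ j, β i j < α i * (q i - 2)) (S : Sys a α β f g)
    (hW : ∀ i, ∃ z, Wr f g i z ≠ 0) : False := by
  classical
  have hq0 : ∀ i, 0 < q i := fun i => by have := hq i; omega
  have hq2 : ∀ i, 2 ≤ q i := fun i => by have := hq i; omega
  -- the index set
  obtain ⟨p, ⟨e⟩⟩ : ∃ p, Nonempty (Fin (p + 1) ≃ (∀ i, Fin (q i))) := by
    have hpos : 0 < Fintype.card (∀ i, Fin (q i)) :=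
      Fintype.card_pos_iff.2 ⟨fun i => ⟨0, hq0 i⟩⟩
    refine ⟨Fintype.card (∀ i, Fin (q i)) - 1, ⟨?_⟩⟩
    have h1 : Fintype.card (∀ i, Fin (q i)) - 1 + 1 = Fintype.card (∀ i, Fin (q i)) := by omega
    exact (finCongr h1).trans (Fintype.equivFin _).symm
  -- the numbers
  set D : ℕ := ∏ i, (q i - 2) with hD
  have hDpos : 0 < D := Finset.prod_pos fun i _ => by have := hq i; omega
  set A : ι → ℕ := fun i => (∑ j, β i j + 1) * ∏ i' ∈ Finset.univ.erase i, (q i' - 2) with hA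
  have hDi : ∀ i, (∏ i' ∈ Finset.univ.erase i, (q i' - 2)) * (q i - 2) = D := fun i => by
    rw [mul_comm, hD]
    exact Finset.mul_prod_erase Finset.univ (fun i => q i - 2) (Finset.mem_univ i)
  have hAD : ∀ i, A i * (q i - 2) = D * (∑ j, β i j) + D := by
    intro i
    rw [hA]
    simp only
    rw [mul_assoc, hDi i]
    ring
  have hAα : ∀ i, A i ≤ D * α i := by
    intro i
    have h1 : ∑ j, β i j + 1 ≤ α i * (q i - 2) := hαβ i
    calc A i ≤ (α i * (q i - 2)) * ∏ i' ∈ Finset.univ.erase i, (q i' - 2) :=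
          Nat.mul_le_mul_right _ h1
      _ = α i * ((∏ i' ∈ Finset.univ.erase i, (q i' - 2)) * (q i - 2)) := by ring
      _ = D * α i := by rw [hDi i, mul_comm]
  set c : ℕ := ∑ i, A i with hc
  have hAc : ∀ i, A i ≤ c := fun i =>
    Finset.single_le_sum (f := A) (fun _ _ => Nat.zero_le _) (Finset.mem_univ i)
  obtain ⟨C, d, hC1, hC⟩ := hpt (α := α) (β := β) ha hq2 e hAD hAc
  set γ : ∀ i, Fin (q i) → ℕ := fun i j => D * β i j + (c * cnt q i j - A i) with hγ
  -- the functions do not vanish identically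
  have hgood : ∀ (z0 : ℂ), ∀ᶠ z in 𝓝[≠] z0, (∀ i j, ell a f g i j z ≠ 0) ∧ ∀ i, Wr f g i z ≠ 0 := by
    intro z0
    refine Filter.Eventually.and ?_ ?_
    · rw [Filter.eventually_all]
      intro i
      rw [Filter.eventually_all]
      intro j
      obtain ⟨z, hz⟩ := S.ne i j
      exact ev_ne (S.diff i j) hz z0
    · rw [Filter.eventually_all]
      intro i
      obtain ⟨z, hz⟩ := hW i
      exact ev_ne (S.wdiff i) hz z0
  obtain ⟨z1, hz1, hz1W⟩ := (hgood 0).exists
  have hHne : ∀ t, ∃ z, HH e a f g t z ≠ 0 := fun t =>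
    ⟨z1, Finset.prod_ne_zero_iff.2 fun i _ => hz1 i _⟩
  have hPne : ∃ z, PP a A γ f g z ≠ 0 := by
    refine ⟨z1, Finset.prod_ne_zero_iff.2 fun i _ => mul_ne_zero (pow_ne_zero _ (hz1W i)) ?_⟩
    exact Finset.prod_ne_zero_iff.2 fun j _ => pow_ne_zero _ (hz1 i j)
  -- a nonconstant ratio
  obtain ⟨i0⟩ := ‹Nonempty ι›
  obtain ⟨k, hk⟩ : ∃ k : Fin (q i0), k ≠ e 0 i0 := by
    have h3 := hq i0
    by_cases h : e 0 i0 = ⟨0, by omega⟩
    · exact ⟨⟨1, by omega⟩, by rw [h]; simp [Fin.ext_iff]⟩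
    · exact ⟨⟨0, by omega⟩, fun h' => h h'.symm⟩
  have hprop : ∀ s : ℂ, ∃ z, HH e a f g (e.symm (Function.update (e 0) i0 k)) z -
      s * HH e a f g 0 z ≠ 0 := by
    intro s
    by_contra hcon
    push Not at hcon
    -- the ratio of two forms is constant
    have h1 : ∀ z, (∀ i j, ell a f g i j z ≠ 0) →
        ell a f g i0 k z - s * ell a f g i0 (e 0 i0) z = 0 := by
      intro z hz
      have h2 := HH_update (a := a) (f := f) (g := g) e (i := i0) (j := e 0 i0) (k := k)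
        (J := e 0) rfl hz
      rw [e.symm_apply_apply] at h2
      have h3 : HH e a f g 0 z ≠ 0 := Finset.prod_ne_zero_iff.2 fun i _ => hz i _
      have h4 := hcon z
      have h5 : HH e a f g (e.symm (Function.update (e 0) i0 k)) z = s * HH e a f g 0 z := by
        linear_combination h4
      rw [h5, mul_div_assoc, div_self h3, mul_one] at h2
      have h6 := hz i0 (e 0 i0)
      rw [h2]
      field_simp
      ring
    have h2 : Differentiable ℂ fun z => ell a f g i0 k z - s * ell a f g i0 (e 0 i0) z :=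
      (S.diff i0 k).sub ((S.diff i0 _).const_mul s)
    have h3 : ∀ z, ell a f g i0 k z - s * ell a f g i0 (e 0 i0) z = 0 := by
      intro z
      by_contra h0
      obtain ⟨w, hw1, hw2, -⟩ := ((ev_ne h2 h0 0).and (hgood 0)).exists
      exact hw1 (h1 w hw2)
    have h4 : ell a f g i0 k = fun z => s * ell a f g i0 (e 0 i0) z := by
      funext z
      linear_combination h3 z
    have h5 := S.wr_pair' i0 k (e 0 i0) z1
    have h6 : deriv (ell a f g i0 k) z1 = s * deriv (ell a f g i0 (e 0 i0)) z1 := by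
      rw [h4]
      exact deriv_const_mul _ (S.diff i0 _ z1)
    rw [h6, h4] at h5
    have h7 : (a i0 (e 0 i0) - a i0 k) * Wr f g i0 z1 = 0 := by
      rw [← h5]
      ring
    have h8 : a i0 (e 0 i0) - a i0 k ≠ 0 := sub_ne_zero.2 fun h => hk (ha i0 h).symm
    exact mul_ne_zero h8 (hz1W i0) h7
  refine contra (HH e a f g) (fun t => S.HHdiff e t) hHne _ hprop (S.PPdiff A γ) hPne ?_
  intro z0 h0 hP0
  have hell0 : ∀ i j, ell a f g i j (ex z0 0) ≠ 0 := by
    intro i j
    obtain ⟨J, hJ⟩ := exists_J hq0 i j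
    have h1 := h0 (e.symm J)
    unfold HH at h1
    rw [e.apply_symm_apply] at h1
    have h2 := Finset.prod_ne_zero_iff.1 h1 i (Finset.mem_univ i)
    rwa [hJ] at h2
  have S' := S.comp z0 hell0
  have hP' : PP a A γ (fun i z => f i (ex z0 z)) (fun i z => g i (ex z0 z)) 0 ≠ 0 := by
    rw [PP_comp S]
    exact mul_ne_zero (pow_ne_zero _ (ex_ne _ _)) hP0
  exact circle hDpos hC1 (U := fun t z => HH e a f g t (ex z0 z)) (fun t => S'.HHdiff e t) h0
    (S'.PPdiff A γ) hP' (S'.hord ha hq0 e hAα hAc)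
    (fun z ε hε hε1 hg => hC _ _ S' z ε hε hε1 hg)

end Pool.Agent.H583_GP
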