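import Mathlib

/-!
Abelian covers of products of projective lines which are branched over fibres of the projections:
branch data, multiplicity vectors, and the numerical criteria.
-/

set_option autoImplicit false

namespace Pool.Agent.H583_GP

/-- The branch data of an abelian cover of the product of `N` projective lines with the affine
coordinates `x i`: the cover is given by the equations `w l ^ m l = ∏ (x i - a i j) ^ e l i j`,
`l < r`, where `a i j`, `j < p i`, are different points of the `i`-th line. The last condition says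
that the cover is not branched over `x i = ∞`. -/
structure Branch (N r : ℕ) where
  p : Fin N → ℕ
  a : ∀ i, Fin (p i) → ℂ
  inj : ∀ i, Function.Injective (a i)
  m : Fin r → ℕ
  pos : ∀ l, 0 < m l
  e : Fin r → ∀ i, Fin (p i) → ℤ
  inf : ∀ l i, (m l : ℤ) ∣ ∑ j, e l i j

namespace Branch

variable {N r : ℕ} (B : Branch N r)

/-- `k` is a possible vector of multiplicities at a point of a curve in the cover: `k i j` is the
multiplicity of the value `a i j` of `x i`, which is nonzero for at most one `j`, and the right hand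
side of the `l`-th equation has a multiplicity divisible by `m l`. -/
structure Adm (k : ∀ i, Fin (B.p i) → ℕ) : Prop where
  one : ∀ i j j', k i j ≠ 0 → k i j' ≠ 0 → j = j'
  cong : ∀ l, (B.m l : ℤ) ∣ ∑ i, ∑ j, B.e l i j * (k i j : ℤ)

/-- The criterion: there are weights `α i > 0`, `β i j ≥ 0` with `∑ j, β i j < α i * (p i - 2)` for
all `i`, such that `∑ β i j * k i j ≥ ∑ α i` for all possible vectors `k ≠ 0` of multiplicities
(where the sum on the right hand side is over all `i`). -/
def Strong : Prop :=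
  ∃ (α : Fin N → ℝ) (β : ∀ i, Fin (B.p i) → ℝ), (∀ i, 0 < α i) ∧ (∀ i j, 0 ≤ β i j) ∧
    (∀ i, ∑ j, β i j < α i * ((B.p i : ℝ) - 2)) ∧
    ∀ k, B.Adm k → k ≠ 0 → ∑ i, α i ≤ ∑ i, ∑ j, β i j * k i j

/-- The weaker criterion, where `∑ β i j * k i j ≥ ∑ α i` is only required for the sum over those
`i` for which `k i ≠ 0`. -/
def Good : Prop :=
  ∃ (α : Fin N → ℝ) (β : ∀ i, Fin (B.p i) → ℝ), (∀ i, 0 < α i) ∧ (∀ i j, 0 ≤ β i j) ∧
    (∀ i, ∑ j, β i j < α i * ((B.p i : ℝ) - 2)) ∧
    ∀ k, B.Adm k → ∑ i, (if k i = 0 then 0 else α i) ≤ ∑ i, ∑ j, β i j * k i j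

/-- The condition of the criterion, up to the condition `p i ≥ 3`. -/
def Wide : Prop :=
  ∃ (α : Fin N → ℝ) (β : ∀ i, Fin (B.p i) → ℝ), (∀ i, 0 < α i) ∧ (∀ i j, 0 ≤ β i j) ∧
    (∀ i, ∑ j, β i j < α i * max 1 ((B.p i : ℝ) - 2)) ∧
    ∀ k, B.Adm k → ∑ i, (if k i = 0 then 0 else α i) ≤ ∑ i, ∑ j, β i j * k i j

/-- The elements `x i`, `w l` of the field `L` define a generically finite rational map from the
varieties with function field `L` to the cover, onto a subvariety which does not lie over the branch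
points. -/
structure Map {L : Type} [Field L] [Algebra ℂ L] (x : Fin N → L) (w : Fin r → L) : Prop where
  ne : ∀ i j, x i ≠ algebraMap ℂ L (B.a i j)
  eqn : ∀ l, w l ^ B.m l = ∏ i, ∏ j, (x i - algebraMap ℂ L (B.a i j)) ^ B.e l i j
  alg : Algebra.IsAlgebraic (IntermediateField.adjoin ℂ (Set.range x)) L

/-- `L` is the function field of a component of the cover, with the coordinate functions `x i`,
`w l`. -/
structure Cover {L : Type} [Field L] [Algebra ℂ L] (x : Fin N → L) (w : Fin r → L) : Prop where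
  ind : AlgebraicIndependent ℂ x
  eqn : ∀ l, w l ^ B.m l = ∏ i, ∏ j, (x i - algebraMap ℂ L (B.a i j)) ^ B.e l i j
  gen : IntermediateField.adjoin ℂ (Set.range x ∪ Set.range w) = ⊤

/-- the criterion `Good` with integral weights -/
def NGood (α : Fin N → ℕ) (β : ∀ i, Fin (B.p i) → ℕ) : Prop :=
  (∀ i, ∑ j, β i j < α i * (B.p i - 2)) ∧
    ∀ k, B.Adm k → ∑ i, (if k i = 0 then 0 else α i) ≤ ∑ i, ∑ j, β i j * k i j

/-- the criterion `Strong` with integral weights -/
def NStrong (α : Fin N → ℕ) (β : ∀ i, Fin (B.p i) → ℕ) : Prop :=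
  (∀ i, ∑ j, β i j < α i * (B.p i - 2)) ∧
    ∀ k, B.Adm k → k ≠ 0 → ∑ i, α i ≤ ∑ i, ∑ j, β i j * k i j

/-- the criterion for one form -/
def NOne (α : ℕ) (β : ∀ i, Fin (B.p i) → ℕ) : Prop :=
  (∀ i, ∑ j, β i j < α * (B.p i - 2)) ∧
    ∀ k, B.Adm k → k ≠ 0 → α ≤ ∑ i, ∑ j, β i j * k i j

end Branch

end Pool.Agent.H583_GP
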