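import Pool.Agent.H583_GP.Plc
import Pool.Agent.W930.CG.BWB
import Pool.Agent.W351.CG.BWA

/-!
The differential forms given by the coordinates.
-/

set_option autoImplicit false

open FF Pool.Agent.W602.GT Pool.Agent.W603.LV Pool.Agent.W602.Cov.G

namespace Pool.Agent.H583_GP

variable {L : Type} [Field L] [Algebra ℂ L] {N d : ℕ}

theorem sum_der {ι : Type} (s : Finset ι) (v : ι → L) (D : ι → Derivation ℂ L L) (g : L) :
    (∑ k ∈ s, v k • D k) g = ∑ k ∈ s, v k * D k g := by
  classical
  induction s using Finset.induction_on with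
  | empty => simp
  | insert a s ha ih =>
    rw [Finset.sum_insert ha, Finset.sum_insert ha, Derivation.add_apply, ih,
      Derivation.smul_apply, smul_eq_mul]

/-- the wedge product of the differentials of `x (c s)` -/
noncomputable def eta (x : Fin N → L) (c : Fin d → Fin N) (D : Fin d → Derivation ℂ L L) : L :=
  (Matrix.of fun l s : Fin d => D l (x (c s))).det

theorem eta_mul (x : Fin N → L) (c : Fin d → Fin N) (A : Matrix (Fin d) (Fin d) L)
    (D : Fin d → Derivation ℂ L L) :
    eta x c (fun i => ∑ j, A i j • D j) = A.det * eta x c D := by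
  unfold eta
  rw [← Matrix.det_mul]
  congr 1
  ext l s
  rw [Matrix.mul_apply, Matrix.of_apply]
  rw [sum_der]
  rfl

theorem bw_one (D : Fin d → Derivation ℂ L L) (y : Fin d → L) :
    bw D (Fin.cons 1 y) = (Matrix.of fun l s : Fin d => D l (y s)).det := by
  unfold bw
  rw [Matrix.det_succ_column_zero, Fin.sum_univ_succ]
  have h1 : ∑ i : Fin d, (-1 : L) ^ ((i.succ : Fin (d + 1)) : ℕ) *
      (Matrix.of fun i j : Fin (d + 1) => (Fin.cases ((Fin.cons 1 y : Fin (d + 1) → L) j)
        (fun l => D l ((Fin.cons 1 y : Fin (d + 1) → L) j)) i : L)) i.succ 0 *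
      ((Matrix.of fun i j : Fin (d + 1) => (Fin.cases ((Fin.cons 1 y : Fin (d + 1) → L) j)
        (fun l => D l ((Fin.cons 1 y : Fin (d + 1) → L) j)) i : L)).submatrix
          (Fin.succAbove i.succ) Fin.succ).det = 0 := by
    refine Finset.sum_eq_zero fun i _ => ?_
    have : (Matrix.of fun i j : Fin (d + 1) => (Fin.cases ((Fin.cons 1 y : Fin (d + 1) → L) j)
        (fun l => D l ((Fin.cons 1 y : Fin (d + 1) → L) j)) i : L)) i.succ 0 = 0 := by
      simp only [Matrix.of_apply, Fin.cases_succ, Fin.cons_zero]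
      exact (D i).map_one_eq_zero
    rw [this, mul_zero, zero_mul]
  rw [h1, add_zero]
  simp only [Fin.val_zero, pow_zero, Matrix.of_apply, Fin.cases_zero, Fin.cons_zero, one_mul,
    Fin.succAbove_zero]
  congr 1

theorem eta_eq (x : Fin N → L) (c : Fin d → Fin N) (b : Fin d → ℂ)
    (D : Fin d → Derivation ℂ L L) :
    eta x c D = bw D (Fin.cons 1 fun s => x (c s) - algebraMap ℂ L (b s)) := by
  rw [bw_one]
  unfold eta
  congr 1
  ext l s
  simp only [Matrix.of_apply]
  rw [map_sub, Derivation.map_algebraMap, sub_zero]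

theorem bwb : S_BWB := Pool.Agent.W930.CG.main Pool.Agent.W351.CG.main

/-- the orders of the forms -/
theorem eta_ge (P : Place ℂ L) (D : Fin d → Derivation ℂ L L) (hD : ∀ i, DerReg P (D i))
    (x : Fin N → L) (c : Fin d → Fin N) (b : Fin d → ℂ)
    (hb : ∀ s, x (c s) - algebraMap ℂ L (b s) ≠ 0) :
    Ge P ((∑ s, P.ord (x (c s) - algebraMap ℂ L (b s))) - 1) (eta x c D) := by
  rw [eta_eq x c b]
  have h := (bwb d L).1 P D (Fin.cons 1 fun s => x (c s) - algebraMap ℂ L (b s)) hD (by
    intro j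
    refine Fin.cases ?_ (fun s => ?_) j
    · rw [Fin.cons_zero]
      exact one_ne_zero
    · rw [Fin.cons_succ]
      exact hb s)
  rw [Fin.sum_univ_succ] at h
  simp only [Fin.cons_zero, Fin.cons_succ, P.ord_one, zero_add] at h
  exact h

theorem eta_reg (P : Place ℂ L) (D : Fin d → Derivation ℂ L L) (hD : ∀ i, DerReg P (D i))
    (x : Fin N → L) (c : Fin d → Fin N) (hx : ∀ s, P.Reg (x (c s))) : P.Reg (eta x c D) := by
  have h0 := eta_eq x c (fun _ => 0) D
  rw [h0]
  refine (bwb d L).2.1 P D _ hD fun j => ?_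
  refine Fin.cases ?_ (fun s => ?_) j
  · rw [Fin.cons_zero]
    exact P.reg_one
  · rw [Fin.cons_succ, map_zero, sub_zero]
    exact hx s

theorem eta_exists (x : Fin N → L) (c : Fin d → Fin N)
    (h : IsTranscendenceBasis ℂ fun s => x (c s)) : ∃ D, eta x c D ≠ 0 := by
  obtain ⟨D, hD⟩ := (bwb d L).2.2 (Fin.cons 1 fun s => x (c s)) (by
    rw [Fin.cons_zero]
    exact one_ne_zero) (by
    simp only [Fin.cons_zero, Fin.cons_succ, div_one]
    exact h)
  refine ⟨D, ?_⟩
  rw [bw_one] at hD
  exact hD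

/-- a system of vector fields on which one of the forms does not vanish is a basis -/
theorem eta_span {x : Fin N → L} {c : Fin d → Fin N}
    (h : IsTranscendenceBasis ℂ fun s => x (c s)) {D : Fin d → Derivation ℂ L L}
    (hD : eta x c D ≠ 0) (E : Derivation ℂ L L) : ∃ v : Fin d → L, E = ∑ j, v j • D j := by
  classical
  have hc0 : CharZero L := charZero_of_injective_algebraMap (algebraMap ℂ L).injective
  set M : Matrix (Fin d) (Fin d) L := Matrix.of fun l s : Fin d => D l (x (c s)) with hM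
  have hdet : IsUnit M.det := isUnit_iff_ne_zero.2 hD
  obtain ⟨v, hv⟩ : ∃ v : Fin d → L, Matrix.vecMul v M = fun s => E (x (c s)) := by
    refine ⟨Matrix.vecMul (fun s => E (x (c s))) M⁻¹, ?_⟩
    rw [Matrix.vecMul_vecMul, Matrix.nonsing_inv_mul _ hdet, Matrix.vecMul_one]
  refine ⟨v, ?_⟩
  have h1 : E - ∑ j, v j • D j = 0 := by
    refine Pool.Agent.W602.GT.der_eq_zero (E - ∑ j, v j • D j) (Set.range fun s => x (c s))
      h.isAlgebraic_field ?_
    rintro _ ⟨s, rfl⟩
    rw [Derivation.sub_apply, sum_der]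
    have h3 := congrFun hv s
    rw [sub_eq_zero]
    simp only [Matrix.vecMul, dotProduct] at h3
    exact h3.symm
  exact sub_eq_zero.1 h1

theorem eta_ne {x : Fin N → L} {c c' : Fin d → Fin N}
    (h : IsTranscendenceBasis ℂ fun s => x (c s)) (h' : IsTranscendenceBasis ℂ fun s => x (c' s))
    {D : Fin d → Derivation ℂ L L} (hD : eta x c D ≠ 0) : eta x c' D ≠ 0 := by
  obtain ⟨D', hD'⟩ := eta_exists x c' h'
  choose v hv using fun l => eta_span h hD (D' l)
  have h1 : D' = fun i => ∑ j, (Matrix.of v) i j • D j := funext fun l => hv l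
  rw [h1, eta_mul] at hD'
  exact right_ne_zero_of_mul hD'

theorem basis_of_set {x : Fin N → L} (hd : Algebra.trdeg ℂ L = d) {u : Set L}
    (hu2 : u ⊆ Set.range x) (hu : IsTranscendenceBasis ℂ ((↑) : u → L)) :
    ∃ c : Fin d → Fin N, (∀ y ∈ u, ∃ s, x (c s) = y) ∧ IsTranscendenceBasis ℂ fun s => x (c s) := by
  have hcard := hu.cardinalMk_eq_trdeg
  rw [hd] at hcard
  have hfin : Finite u := by
    rw [← Cardinal.lt_aleph0_iff_finite, hcard]
    exact Cardinal.natCast_lt_aleph0
  have : Fintype u := Fintype.ofFinite u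
  have hcd : Fintype.card u = d := by
    rw [Cardinal.mk_fintype] at hcard
    exact_mod_cast hcard
  let e : Fin d ≃ u := (Fintype.equivFinOfCardEq hcd).symm
  have hsel : ∀ s, ∃ t, x t = (e s : L) := fun s => hu2 (e s).2
  choose c hc using hsel
  refine ⟨c, fun y hy => ⟨e.symm ⟨y, hy⟩, ?_⟩, ?_⟩
  · rw [hc, e.apply_symm_apply]
  · have h2 : (fun s => x (c s)) = (fun j : u => (j : L)) ∘ e := funext fun s => hc s
    rw [h2]
    exact (isTranscendenceBasis_equiv' e rfl).2 hu |> fun h => h

theorem exists_basis0 {x : Fin N → L}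
    (halg : Algebra.IsAlgebraic (IntermediateField.adjoin ℂ (Set.range x)) L)
    (hd : Algebra.trdeg ℂ L = d) :
    ∃ c : Fin d → Fin N, IsTranscendenceBasis ℂ fun s => x (c s) := by
  have h1 := alg_adjoin halg
  obtain ⟨u, hu2, hu⟩ := exists_isTranscendenceBasis_subset (R := ℂ) (Set.range x)
  obtain ⟨c, -, hc⟩ := basis_of_set hd hu2 hu
  exact ⟨c, hc⟩

/-- every transcendental coordinate is part of a transcendence basis of coordinates -/
theorem exists_basis {x : Fin N → L}
    (halg : Algebra.IsAlgebraic (IntermediateField.adjoin ℂ (Set.range x)) L)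
    (hd : Algebra.trdeg ℂ L = d) {i : Fin N} (hi : Transcendental ℂ (x i)) :
    ∃ c : Fin d → Fin N, (∃ s, c s = i) ∧ IsTranscendenceBasis ℂ fun s => x (c s) := by
  classical
  have h1 := alg_adjoin halg
  have hs : AlgebraicIndepOn ℂ id ({x i} : Set L) := by
    have := (algebraicIndependent_singleton_iff (R := ℂ) (x := fun j : ({x i} : Set L) => (j : L))
      ⟨x i, rfl⟩).2 hi
    exact this
  obtain ⟨u, hu1, hu2, hu⟩ := exists_isTranscendenceBasis_between ({x i} : Set L) (Set.range x)
    (by rintro _ rfl; exact ⟨i, rfl⟩) hs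
  obtain ⟨c, hc1, hc⟩ := basis_of_set hd hu2 hu
  obtain ⟨s0, hs0⟩ := hc1 (x i) (hu1 rfl)
  refine ⟨Function.update c s0 i, ⟨s0, Function.update_self _ _ _⟩, ?_⟩
  have h2 : (fun s => x (Function.update c s0 i s)) = fun s => x (c s) := by
    funext s
    by_cases h : s = s0
    · rw [h, Function.update_self, hs0]
    · rw [Function.update_of_ne h]
  rw [h2]
  exact hc

end Pool.Agent.H583_GP
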