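import Pool.Agent.H583_GP.Wts

/-!
Roots of products of polynomials in different variables.
-/

set_option autoImplicit false
set_option linter.unusedSectionVars false

open Polynomial

namespace Pool.Agent.H583_GP

theorem card_roots' {P : ℂ[X]} (hP : Squarefree P) : P.roots.toFinset.card = P.natDegree := by
  classical
  have h0 : P ≠ 0 := hP.ne_zero
  have h1 : P.roots.Nodup := nodup_roots (PerfectField.separable_iff_squarefree.2 hP)
  have h2 : (P.roots.toFinset).card = Multiset.card P.roots := by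
    rw [Multiset.toFinset_card_of_nodup h1]
  rw [h2]
  exact (splits_iff_card_roots.1 (IsAlgClosed.splits P))

/-- the roots of a polynomial without multiple roots -/
noncomputable def rt {P : ℂ[X]} (hP : Squarefree P) (j : Fin P.natDegree) : ℂ :=
  ((Finset.equivFinOfCardEq (card_roots' hP)).symm j : ℂ)

theorem rt_inj {P : ℂ[X]} (hP : Squarefree P) : Function.Injective (rt hP) := by
  intro j j' h
  exact (Finset.equivFinOfCardEq (card_roots' hP)).symm.injective (Subtype.ext h)

theorem rt_prod {P : ℂ[X]} (hP : Squarefree P) {L : Type} [Field L] [Algebra ℂ L] (x : L) :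
    aeval x P = algebraMap ℂ L P.leadingCoeff * ∏ j, (x - algebraMap ℂ L (rt hP j)) := by
  classical
  have h1 : P.roots.Nodup := nodup_roots (PerfectField.separable_iff_squarefree.2 hP)
  have h2 := (IsAlgClosed.splits P).eq_prod_roots
  have h3 : (P.roots.map fun a => X - C a).prod = ∏ a ∈ P.roots.toFinset, (X - C a) := by
    rw [Finset.prod_eq_multiset_prod, Multiset.toFinset_val, h1.dedup]
  have h4 : ∏ a ∈ P.roots.toFinset, (X - C a) = ∏ j, (X - C (rt hP j)) := by
    rw [← Finset.prod_coe_sort]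
    exact (Equiv.prod_comp (Finset.equivFinOfCardEq (card_roots' hP)).symm
      fun a : P.roots.toFinset => (X - C (a : ℂ))).symm
  rw [h3, h4] at h2
  conv_lhs => rw [h2]
  rw [map_mul, aeval_C, map_prod]
  congr 1
  exact Finset.prod_congr rfl fun j _ => by rw [map_sub, aeval_X, aeval_C]

variable {N m : ℕ} {P : Fin N → ℂ[X]}

/-- the cover `w ^ m = ∏ P i (x i)` -/
noncomputable def cyc (hP : ∀ i, Squarefree (P i)) (hm : 0 < m) (hd : ∀ i, m ∣ (P i).natDegree) :
    Branch N 1 where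
  p i := (P i).natDegree
  a i := rt (hP i)
  inj i := rt_inj (hP i)
  m _ := m
  pos _ := hm
  e _ _ _ := 1
  inf _ i := by
    rw [Finset.sum_const, Finset.card_univ, Fintype.card_fin, nsmul_eq_mul, mul_one]
    exact_mod_cast hd i

theorem cyc_strong (hP : ∀ i, Squarefree (P i)) (hm : 0 < m) (hd : ∀ i, m ∣ (P i).natDegree)
    (h3 : ∀ i, 3 ≤ (P i).natDegree)
    (hs : ∑ i, ((P i).natDegree : ℝ) / (((P i).natDegree : ℝ) - 2) < m) :
    (cyc hP hm hd).Strong := by
  refine Branch.strong_of_total (μ := m) h3 (fun k hk hk0 => ?_) hs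
  have h1 := hk.cong 0
  have h2 : ∑ i, ∑ j, (cyc hP hm hd).e 0 i j * (k i j : ℤ) = ((∑ i, ∑ j, k i j : ℕ) : ℤ) := by
    push_cast
    exact Finset.sum_congr rfl fun i _ => Finset.sum_congr rfl fun j _ => one_mul _
  rw [h2] at h1
  have h4 : m ∣ ∑ i, ∑ j, k i j := by exact_mod_cast h1
  have h5 : 0 < ∑ i, ∑ j, k i j := by
    rw [Nat.pos_iff_ne_zero]
    intro h6
    apply hk0
    funext i j
    have h7 := (Finset.sum_eq_zero_iff.1 h6) i (Finset.mem_univ i)
    exact (Finset.sum_eq_zero_iff.1 h7) j (Finset.mem_univ j)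
  exact_mod_cast Nat.le_of_dvd h5 h4

theorem cyc_map (hP : ∀ i, Squarefree (P i)) (hm : 0 < m) (hd : ∀ i, m ∣ (P i).natDegree)
    {L : Type} [Field L] [Algebra ℂ L] {x : Fin N → L} {w : L}
    (h0 : ∀ i, aeval (x i) (P i) ≠ 0) (hw : w ^ m = ∏ i, aeval (x i) (P i))
    (halg : Algebra.IsAlgebraic (IntermediateField.adjoin ℂ (Set.range x)) L) :
    ∃ w' : Fin 1 → L, (cyc hP hm hd).Map x w' := by
  obtain ⟨c, hc⟩ := IsAlgClosed.exists_pow_nat_eq (∏ i, (P i).leadingCoeff) hm
  have hc0 : c ≠ 0 := by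
    rintro rfl
    rw [zero_pow hm.ne'] at hc
    exact (Finset.prod_ne_zero_iff.2 fun i _ =>
      leadingCoeff_ne_zero.2 (hP i).ne_zero) hc.symm
  have hc1 : algebraMap ℂ L c ≠ 0 := (_root_.map_ne_zero _).2 hc0
  refine ⟨fun _ => w / algebraMap ℂ L c, ?_, fun l => ?_, halg⟩
  · intro i j h
    refine h0 i ?_
    have h1 : ∏ j, (x i - algebraMap ℂ L (rt (hP i) j)) = 0 :=
      Finset.prod_eq_zero (Finset.mem_univ (j : Fin (P i).natDegree)) (sub_eq_zero.2 h)
    rw [rt_prod (hP i), h1, mul_zero]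
  · change (w / algebraMap ℂ L c) ^ m = ∏ i, ∏ j, (x i - algebraMap ℂ L (rt (hP i) j)) ^ (1 : ℤ)
    rw [div_pow, hw, ← map_pow, hc, map_prod, div_eq_iff (Finset.prod_ne_zero_iff.2 fun i _ =>
      (_root_.map_ne_zero _).2 (leadingCoeff_ne_zero.2 (hP i).ne_zero)), ← Finset.prod_mul_distrib]
    refine Finset.prod_congr rfl fun i _ => ?_
    rw [rt_prod (hP i), mul_comm]
    congr 1
    exact Finset.prod_congr rfl fun j _ => (zpow_one _).symm

end Pool.Agent.H583_GP
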