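import Pool.Agent.H583_GP.Mero

/-!
Meromorphic functions with the functional equations of the covers are constant.
-/

set_option autoImplicit false
set_option linter.unusedSectionVars false

open FF Filter Topology Pool.Agent.TH143.EL Pool.Agent.Y221.AB

namespace Pool.Agent.H583_GP

theorem Fn_cl_sub {f : ℂ → ℂ} (hf : Meromorphic f) (c : ℂ) :
    ∀ᶠ z in codiscrete ℂ, Fn (cl f hf - algebraMap ℂ MK c) z = f z - c := by
  have h1 : cl f hf - algebraMap ℂ MK c = cl f hf + algebraMap ℂ MK (-c) := by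
    rw [map_neg]
    ring
  rw [h1]
  filter_upwards [Fn_add_codis (cl f hf) (algebraMap ℂ MK (-c)), Fn_cl_codis hf,
    Fn_const_codis (-c)] with z h2 h3 h4
  rw [h2, h3, h4]
  ring

theorem Fn_one_codis : ∀ᶠ z in codiscrete ℂ, Fn (1 : MK) z = 1 := by
  have h := Fn_const_codis 1
  rwa [map_one] at h

theorem Fn_pow_codis (x : MK) (n : ℕ) : ∀ᶠ z in codiscrete ℂ, Fn (x ^ n) z = Fn x z ^ n := by
  induction n with
  | zero =>
    filter_upwards [Fn_one_codis] with z hz
    rw [pow_zero, pow_zero, hz]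
  | succ n ih =>
    filter_upwards [ih, Fn_mul_codis (x ^ n) x] with z h1 h2
    rw [pow_succ, h2, h1, pow_succ]

theorem Fn_zpow_codis (x : MK) (e : ℤ) : ∀ᶠ z in codiscrete ℂ, Fn (x ^ e) z = Fn x z ^ e := by
  cases e with
  | ofNat n =>
    filter_upwards [Fn_pow_codis x n] with z hz
    rw [Int.ofNat_eq_natCast, zpow_natCast, zpow_natCast, hz]
  | negSucc n =>
    filter_upwards [Fn_pow_codis x (n + 1), Fn_inv_codis (x ^ (n + 1))] with z h1 h2
    rw [zpow_negSucc, zpow_negSucc, h2, h1]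

theorem Fn_prod_codis {ι : Type} (s : Finset ι) (x : ι → MK) :
    ∀ᶠ z in codiscrete ℂ, Fn (∏ i ∈ s, x i) z = ∏ i ∈ s, Fn (x i) z := by
  classical
  induction s using Finset.induction_on with
  | empty =>
    filter_upwards [Fn_one_codis] with z hz
    rw [Finset.prod_empty, Finset.prod_empty, hz]
  | insert a s ha ih =>
    filter_upwards [ih, Fn_mul_codis (x a) (∏ i ∈ s, x i)] with z h1 h2
    rw [Finset.prod_insert ha, Finset.prod_insert ha, h2, h1]

variable {N r : ℕ} {B : Branch N r}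

/-- **Meromorphic functions with the functional equations of the covers are constant.** -/
theorem functions {α : Fin N → ℕ} {β : ∀ i, Fin (B.p i) → ℕ} (hg : B.NGood α β)
    {X : Fin N → ℂ → ℂ} {W : Fin r → ℂ → ℂ} (hX : ∀ i, Meromorphic (X i))
    (hW : ∀ l, Meromorphic (W l)) (hne : ∀ i j, ¬ ∀ᶠ z in codiscrete ℂ, X i z = B.a i j)
    (heq : ∀ l, ∀ᶠ z in codiscrete ℂ,
      W l z ^ B.m l = ∏ i, ∏ j, (X i z - B.a i j) ^ B.e l i j) (i : Fin N) :
    ∃ c : ℂ, ∀ᶠ z in codiscrete ℂ, X i z = c := by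
  obtain ⟨c, hc⟩ := mero_const hg (x := fun i => cl (X i) (hX i)) (w := fun l => cl (W l) (hW l))
    (fun i j h => hne i j (by
      rw [← cl_const, cl_eq] at h
      exact h)) (fun l => by
      refine Fn_inj ?_
      have h1 : ∀ i, ∀ᶠ z in codiscrete ℂ,
          Fn (∏ j, (cl (X i) (hX i) - algebraMap ℂ MK (B.a i j)) ^ B.e l i j) z =
            ∏ j, (X i z - B.a i j) ^ B.e l i j := by
        intro i
        have h2 : ∀ᶠ z in codiscrete ℂ, ∀ j,
            Fn ((cl (X i) (hX i) - algebraMap ℂ MK (B.a i j)) ^ B.e l i j) z =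
              (X i z - B.a i j) ^ B.e l i j := by
          rw [Filter.eventually_all]
          intro j
          filter_upwards [Fn_zpow_codis (cl (X i) (hX i) - algebraMap ℂ MK (B.a i j)) (B.e l i j),
            Fn_cl_sub (hX i) (B.a i j)] with z h3 h4
          rw [h3, h4]
        filter_upwards [h2, Fn_prod_codis Finset.univ
          fun j => (cl (X i) (hX i) - algebraMap ℂ MK (B.a i j)) ^ B.e l i j] with z h3 h4
        rw [h4]
        exact Finset.prod_congr rfl fun j _ => h3 j
      have h2 := Filter.eventually_all.2 h1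
      filter_upwards [h2, Fn_prod_codis Finset.univ
        (fun i => ∏ j, (cl (X i) (hX i) - algebraMap ℂ MK (B.a i j)) ^ B.e l i j),
        Fn_pow_codis (cl (W l) (hW l)) (B.m l), Fn_cl_codis (hW l), heq l] with z h3 h4 h5 h6 h7
      rw [h5, h6, h7, h4]
      exact Finset.prod_congr rfl fun i _ => (h3 i).symm) i
  refine ⟨c, ?_⟩
  rw [← cl_const, cl_eq] at hc
  exact hc

end Pool.Agent.H583_GP
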