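import Pool.Agent.H583_GP.Eta

/-!
The covers are of general type.
-/

set_option autoImplicit false

open FF Pool.Agent.W602.GT Pool.Agent.W603.LV Pool.Agent.W602.Cov.G

namespace Pool.Agent.H583_GP

variable {N r d : ℕ} {B : Branch N r} {L : Type} [Field L] [Algebra ℂ L]

theorem const_of_alg {y : L} (h : IsAlgebraic ℂ y) : ∃ c, y = algebraMap ℂ L c := by
  have h1 := IsAlgClosed.degree_eq_one_of_irreducible ℂ (minpoly.irreducible h.isIntegral)
  obtain ⟨c, hc⟩ := minpoly.mem_range_of_degree_eq_one ℂ y h1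
  exact ⟨c, hc.symm⟩

/-- the index of the branch point of a multiplicity vector -/
theorem Branch.Adm.sel (hp : ∀ i, 3 ≤ B.p i) {K : ∀ i, Fin (B.p i) → ℕ} (hK : B.Adm K)
    (i : Fin N) : ∃ j, K i j = ∑ j', K i j' := by
  classical
  by_cases h : ∃ j, K i j ≠ 0
  · obtain ⟨j, hj⟩ := h
    refine ⟨j, ?_⟩
    rw [Finset.sum_eq_single j]
    · intro j' _ hne
      by_contra hcon
      exact hne (hK.one i j' j hcon hj)
    · intro h
      exact absurd (Finset.mem_univ j) h
  · push Not at h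
    refine ⟨⟨0, by have := hp i; omega⟩, ?_⟩
    rw [h, Finset.sum_eq_zero fun j _ => h j]

/-- the orders of the wedge products of the differentials of the coordinates -/
theorem Branch.eta_place (hp : ∀ i, 3 ≤ B.p i) (P : Place ℂ L) (D : Fin d → Derivation ℂ L L)
    (hD : ∀ i, DerReg P (D i)) {x : Fin N → L} (hne : ∀ i j, x i ≠ algebraMap ℂ L (B.a i j))
    {K : ∀ i, Fin (B.p i) → ℕ} {l : Fin N → ℕ} (hK : B.Adm K)
    (h : ∀ i, (l i = 0 ∧ P.Reg (x i) ∧ ∀ j, P.ord (x i - algebraMap ℂ L (B.a i j)) = K i j) ∨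
      (0 < l i ∧ K i = 0 ∧ x i ≠ 0 ∧ P.ord (x i) = -l i ∧
        ∀ c, x i - algebraMap ℂ L c ≠ 0 ∧ P.ord (x i - algebraMap ℂ L c) = -l i))
    (c : Fin d → Fin N) :
    Ge P ((∑ s, ((∑ j, (K (c s) j : ℤ)) - 2 * l (c s))) - (if K = 0 then 0 else 1))
      (eta x c D) := by
  classical
  -- the coordinates which are regular at the place
  set y : Fin N → L := fun i => if l i = 0 then x i else (x i)⁻¹ with hy
  set u : Fin N → L := fun i => if l i = 0 then 1 else -(x i) ^ 2 with hu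
  have h1 : eta x c D = (∏ s, u (c s)) * eta y c D := by
    unfold eta
    rw [← Matrix.det_mul_row]
    congr 1
    ext i s
    simp only [Matrix.of_apply, hu, hy]
    by_cases hl : l (c s) = 0
    · rw [if_pos hl, if_pos hl, one_mul]
    · rw [if_neg hl, if_neg hl]
      rcases h (c s) with ⟨h2, -⟩ | ⟨-, -, h2, -⟩
      · exact absurd h2 hl
      · rw [Derivation.leibniz_inv, smul_eq_mul]
        field_simp
  have hu0 : ∀ i, u i ≠ 0 := by
    intro i
    simp only [hu]
    by_cases hl : l i = 0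
    · rw [if_pos hl]
      exact one_ne_zero
    · rw [if_neg hl]
      rcases h i with ⟨h2, -⟩ | ⟨-, -, h2, -⟩
      · exact absurd h2 hl
      · exact neg_ne_zero.2 (pow_ne_zero 2 h2)
  have hord : ∀ i, P.ord (u i) = -2 * l i := by
    intro i
    simp only [hu]
    by_cases hl : l i = 0
    · rw [if_pos hl, hl, P.ord_one]
      simp
    · rw [if_neg hl, P.ord_neg, P.ord_pow]
      rcases h i with ⟨h2, -⟩ | ⟨-, -, -, h2, -⟩
      · exact absurd h2 hl
      · rw [h2]
        push_cast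
        ring
  have h2 : Ge P (∑ s, -2 * (l (c s) : ℤ)) (∏ s, u (c s)) := by
    refine Ge.prod _ _ _ fun s _ => ?_
    rw [← hord]
    exact ge_ord P _
  have hreg : ∀ i, P.Reg (y i) := by
    intro i
    simp only [hy]
    rcases h i with ⟨h3, h4, -⟩ | ⟨h3, -, h4, h5, -⟩
    · rw [if_pos h3]
      exact h4
    · rw [if_neg h3.ne']
      right
      rw [P.ord_inv, h5]
      omega
  have h3 : Ge P ((∑ s, (∑ j, (K (c s) j : ℤ))) - (if K = 0 then 0 else 1)) (eta y c D) := by
    by_cases hK0 : K = 0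
    · rw [if_pos hK0]
      have h4 := eta_reg P D hD y c fun s => hreg _
      have h5 : (∑ s, (∑ j, (K (c s) j : ℤ))) = 0 := by
        rw [hK0]
        simp
      rw [h5, sub_zero]
      exact h4
    · rw [if_neg hK0]
      choose j hj using hK.sel hp
      -- the values at the place
      have hb : ∀ i, ∃ b : ℂ, y i - algebraMap ℂ L b ≠ 0 ∧
          (∑ j, (K i j : ℤ)) ≤ P.ord (y i - algebraMap ℂ L b) := by
        intro i
        simp only [hy]
        rcases h i with ⟨h3, -, h4⟩ | ⟨h3, h6, h4, h5, -⟩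
        · rw [if_pos h3]
          refine ⟨B.a i (j i), sub_ne_zero.2 (hne i _), ?_⟩
          rw [h4, hj]
          push_cast
          exact le_rfl
        · rw [if_neg h3.ne']
          refine ⟨0, ?_, ?_⟩
          · rw [map_zero, sub_zero]
            exact inv_ne_zero h4
          · rw [map_zero, sub_zero, P.ord_inv, h5, h6]
            simp
      choose b hb1 hb2 using hb
      refine (eta_ge P D hD y c (fun s => b (c s)) fun s => hb1 _).mono ?_
      have h4 := Finset.sum_le_sum fun s (_ : s ∈ (Finset.univ : Finset (Fin d))) => hb2 (c s)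
      linarith
  rw [h1]
  refine (h2.mul h3).mono (le_of_eq ?_)
  rw [Finset.sum_sub_distrib, ← Finset.mul_sum, ← Finset.mul_sum]
  ring

/-- the number of the factors `d x i` in the product of the forms -/
noncomputable def num (T : Finset (Fin N)) (α : Fin N → ℕ) (c : Fin N → Fin d → Fin N)
    (i : Fin N) : ℤ := ∑ t ∈ T, (α t : ℤ) * ∑ s, if c t s = i then 1 else 0

theorem num_sum (T : Finset (Fin N)) (α : Fin N → ℕ) (c : Fin N → Fin d → Fin N) (F : Fin N → ℤ) :
    ∑ i, num T α c i * F i = ∑ t ∈ T, (α t : ℤ) * ∑ s, F (c t s) := by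
  unfold num
  simp only [Finset.sum_mul, Finset.mul_sum]
  rw [Finset.sum_comm]
  refine Finset.sum_congr rfl fun t _ => ?_
  rw [Finset.sum_comm]
  refine Finset.sum_congr rfl fun s _ => ?_
  simp

theorem num_nonneg (T : Finset (Fin N)) (α : Fin N → ℕ) (c : Fin N → Fin d → Fin N) (i : Fin N) :
    0 ≤ num T α c i := by
  unfold num
  refine Finset.sum_nonneg fun t _ => mul_nonneg (Int.natCast_nonneg _) ?_
  refine Finset.sum_nonneg fun s _ => ?_
  split_ifs <;> norm_num

theorem num_ge {T : Finset (Fin N)} {α : Fin N → ℕ} {c : Fin N → Fin d → Fin N} {i : Fin N}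
    (hi : i ∈ T) (hc : ∃ s, c i s = i) : (α i : ℤ) ≤ num T α c i := by
  unfold num
  obtain ⟨s, hs⟩ := hc
  have h0 : ∀ t, ∀ s', (0 : ℤ) ≤ if c t s' = i then 1 else 0 := fun t s' => by
    split_ifs <;> norm_num
  calc (α i : ℤ) = α i * 1 := (mul_one _).symm
    _ ≤ α i * ∑ s, if c i s = i then 1 else 0 := by
      refine mul_le_mul_of_nonneg_left ?_ (Int.natCast_nonneg _)
      have h1 := Finset.single_le_sum (fun s' _ => h0 i s') (Finset.mem_univ s)
      rwa [if_pos hs] at h1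
    _ ≤ _ := Finset.single_le_sum (f := fun t => (α t : ℤ) * ∑ s, if c t s = i then 1 else 0)
      (fun t _ => mul_nonneg (Int.natCast_nonneg _) (Finset.sum_nonneg fun s' _ => h0 t s')) hi

/-- the forms -/
noncomputable def form (B : Branch N r) (x : Fin N → L) (T : Finset (Fin N)) (α : Fin N → ℕ)
    (β : ∀ i, Fin (B.p i) → ℕ) (c : Fin N → Fin d → Fin N) (h : L)
    (D : Fin d → Derivation ℂ L L) : L :=
  (∏ t ∈ T, eta x (c t) D ^ α t) *
    ((∏ i, ∏ j, (x i - algebraMap ℂ L (B.a i j)) ^ ((β i j : ℤ) - num T α c i)) * h)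

theorem form_pluri (x : Fin N → L) (T : Finset (Fin N)) (α : Fin N → ℕ)
    (β : ∀ i, Fin (B.p i) → ℕ) (c : Fin N → Fin d → Fin N) (h : L) :
    IsPluri (∑ t ∈ T, α t) (form B x T α β c h) := by
  intro A D
  unfold form
  simp only [eta_mul, mul_pow]
  rw [Finset.prod_mul_distrib, Finset.prod_pow_eq_pow_sum]
  ring

theorem form_ge {α : Fin N → ℕ} {β : ∀ i, Fin (B.p i) → ℕ} (hp : ∀ i, 3 ≤ B.p i) {x : Fin N → L}
    {w : Fin r → L} (hM : B.Map x w) {T : Finset (Fin N)} {c : Fin N → Fin d → Fin N}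
    (hcost : ∀ K, B.Adm K → K ≠ 0 → ∑ t ∈ T, α t ≤ ∑ i, ∑ j, β i j * K i j)
    (hnum : ∀ i, Transcendental ℂ (x i) →
      ∑ j, (β i j : ℤ) < num T α c i * ((B.p i : ℤ) - 2)) (P : Place ℂ L)
    {h : L} (hh : h = 1 ∨ ∃ i, h = x i) : RegAt P (form B x T α β c h) := by
  classical
  intro D hD
  obtain ⟨K, l, hK, hP⟩ := Branch.place P hM.ne hM.eqn
  -- the constant coordinates
  have hl0 : ∀ i, ¬ Transcendental ℂ (x i) → l i = 0 := by
    intro i hi
    obtain ⟨b, hb⟩ := const_of_alg (of_not_not hi)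
    rcases hP i with ⟨h1, -⟩ | ⟨-, -, -, -, h1⟩
    · exact h1
    · exact absurd (sub_eq_zero.2 hb) (h1 b).1
  -- the order of the factor `h`
  obtain ⟨lam, hlam1, hlam2⟩ : ∃ lam : ℤ, lam ≤ ∑ i, (l i : ℤ) ∧ Ge P (-lam) h := by
    rcases hh with rfl | ⟨i, rfl⟩
    · refine ⟨0, Finset.sum_nonneg fun i _ => Int.natCast_nonneg _, ?_⟩
      rw [neg_zero]
      exact Ge.one
    · refine ⟨l i, Finset.single_le_sum (f := fun i => (l i : ℤ))
        (fun i _ => Int.natCast_nonneg _) (Finset.mem_univ i), ?_⟩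
      rcases hP i with ⟨h1, h2, -⟩ | ⟨h1, -, h3, h2, -⟩
      · rw [h1]
        exact h2
      · exact Or.inr h2.ge
  have h1 : Ge P (∑ t ∈ T, (α t : ℤ) * ((∑ s, ((∑ j, (K (c t s) j : ℤ)) - 2 * l (c t s))) -
      (if K = 0 then 0 else 1))) (∏ t ∈ T, eta x (c t) D ^ α t) := by
    refine Ge.prod _ _ _ fun t _ => ?_
    exact (Branch.eta_place hp P D hD hM.ne hK hP (c t)).pow (α t)
  have hord : ∀ i j, P.ord (x i - algebraMap ℂ L (B.a i j)) = K i j - l i := by
    intro i j
    rcases hP i with ⟨h2, -, h3⟩ | ⟨-, h2, -, -, h3⟩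
    · rw [h3, h2]
      simp
    · rw [(h3 _).2, h2]
      simp
  have h2 : Ge P (∑ i, ∑ j, ((β i j : ℤ) - num T α c i) * (K i j - l i))
      (∏ i, ∏ j, (x i - algebraMap ℂ L (B.a i j)) ^ ((β i j : ℤ) - num T α c i)) := by
    refine Ge.prod _ _ _ fun i _ => Ge.prod _ _ _ fun j _ => ?_
    rw [← hord, ← P.ord_zpow]
    exact ge_ord P _
  have h3 := h1.mul (h2.mul hlam2)
  unfold form
  refine h3.mono ?_
  -- the computation
  set δ : ℤ := if K = 0 then 0 else 1 with hδ
  have e1 : ∑ t ∈ T, (α t : ℤ) * ((∑ s, ((∑ j, (K (c t s) j : ℤ)) - 2 * l (c t s))) - δ) =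
      ∑ i, num T α c i * ((∑ j, (K i j : ℤ)) - 2 * l i) - δ * ∑ t ∈ T, (α t : ℤ) := by
    rw [num_sum]
    rw [Finset.mul_sum, ← Finset.sum_sub_distrib]
    exact Finset.sum_congr rfl fun t _ => by ring
  have e2 : ∑ i, ∑ j, ((β i j : ℤ) - num T α c i) * (K i j - l i) =
      ∑ i, ∑ j, (β i j : ℤ) * K i j - ∑ i, num T α c i * (∑ j, (K i j : ℤ)) +
        ∑ i, (l i : ℤ) * (B.p i * num T α c i - ∑ j, (β i j : ℤ)) := by
    rw [← Finset.sum_sub_distrib, ← Finset.sum_add_distrib]
    refine Finset.sum_congr rfl fun i _ => ?_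
    have e3 : ∀ j, ((β i j : ℤ) - num T α c i) * (K i j - l i) =
        ((β i j : ℤ) * K i j - num T α c i * K i j) + (l i * num T α c i - l i * β i j) :=
      fun j => by ring
    have e8 : ∑ j, (l i : ℤ) * β i j = l i * ∑ j, (β i j : ℤ) := (Finset.mul_sum _ _ _).symm
    have e9 : ∑ j, num T α c i * K i j = num T α c i * ∑ j, (K i j : ℤ) :=
      (Finset.mul_sum _ _ _).symm
    rw [Finset.sum_congr rfl fun j _ => e3 j, Finset.sum_add_distrib, Finset.sum_sub_distrib,
      Finset.sum_sub_distrib, e8, e9, Finset.sum_const,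
      Finset.card_univ, Fintype.card_fin, nsmul_eq_mul]
    ring
  have e4 : 0 ≤ ∑ i, ∑ j, (β i j : ℤ) * K i j - δ * ∑ t ∈ T, (α t : ℤ) := by
    by_cases hK0 : K = 0
    · rw [hδ, if_pos hK0, zero_mul, sub_zero]
      exact Finset.sum_nonneg fun i _ => Finset.sum_nonneg fun j _ => by positivity
    · rw [hδ, if_neg hK0, one_mul, sub_nonneg]
      exact_mod_cast hcost K hK hK0
  have e5 : ∑ i, (l i : ℤ) ≤ ∑ i, (l i : ℤ) *
      ((B.p i * num T α c i - ∑ j, (β i j : ℤ)) - 2 * num T α c i) := by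
    refine Finset.sum_le_sum fun i _ => ?_
    by_cases hi : Transcendental ℂ (x i)
    · have h4 := hnum i hi
      have h9 : (1 : ℤ) ≤ (B.p i * num T α c i - ∑ j, (β i j : ℤ)) - 2 * num T α c i := by
        have : (B.p i * num T α c i - ∑ j, (β i j : ℤ)) - 2 * num T α c i =
          num T α c i * ((B.p i : ℤ) - 2) - ∑ j, (β i j : ℤ) := by ring
        rw [this]
        linarith
      have h10 : (0 : ℤ) ≤ l i := Int.natCast_nonneg _
      nlinarith
    · rw [hl0 i hi]
      simp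
  rw [e1, e2]
  have e6 : ∑ i, num T α c i * ((∑ j, (K i j : ℤ)) - 2 * l i) =
      ∑ i, num T α c i * (∑ j, (K i j : ℤ)) - ∑ i, (l i : ℤ) * (2 * num T α c i) := by
    rw [← Finset.sum_sub_distrib]
    exact Finset.sum_congr rfl fun i _ => by ring
  have e7 : ∑ i, (l i : ℤ) * ((B.p i * num T α c i - ∑ j, (β i j : ℤ)) - 2 * num T α c i) =
      ∑ i, (l i : ℤ) * (B.p i * num T α c i - ∑ j, (β i j : ℤ)) -
        ∑ i, (l i : ℤ) * (2 * num T α c i) := by
    rw [← Finset.sum_sub_distrib]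
    exact Finset.sum_congr rfl fun i _ => by ring
  rw [e6]
  rw [e7] at e5
  linarith

theorem general_of {α : Fin N → ℕ} {β : ∀ i, Fin (B.p i) → ℕ} (hp : ∀ i, 3 ≤ B.p i)
    {x : Fin N → L} {w : Fin r → L} (hM : B.Map x w) (hd : Algebra.trdeg ℂ L = d)
    {T : Finset (Fin N)} (hT : 0 < ∑ t ∈ T, α t) {c : Fin N → Fin d → Fin N}
    (hcost : ∀ K, B.Adm K → K ≠ 0 → ∑ t ∈ T, α t ≤ ∑ i, ∑ j, β i j * K i j)
    (hnum : ∀ i, Transcendental ℂ (x i) →
      ∑ j, (β i j : ℤ) < num T α c i * ((B.p i : ℤ) - 2))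
    (hc : ∀ t ∈ T, IsTranscendenceBasis ℂ fun s => x (c t s)) : GeneralType ℂ L d := by
  classical
  obtain ⟨c0, hc0⟩ := exists_basis0 hM.alg hd
  refine ⟨hd, ∑ t ∈ T, α t, hT, fun s => form B x T α β c
    ((Fin.cases 1 (fun s => x (c0 s)) s : L)), fun s => form_pluri _ _ _ _ _ _, ?_, ?_⟩
  · intro P _ s
    refine form_ge hp hM hcost hnum P ?_
    refine Fin.cases (Or.inl rfl) (fun s => Or.inr ⟨c0 s, rfl⟩) s
  · obtain ⟨D, hD⟩ := eta_exists x c0 hc0
    have h2 : (∏ t ∈ T, eta x (c t) D ^ α t) ≠ 0 := by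
      refine Finset.prod_ne_zero_iff.2 fun t ht => pow_ne_zero _ ?_
      exact eta_ne hc0 (hc t ht) hD
    have h3 : (∏ i, ∏ j, (x i - algebraMap ℂ L (B.a i j)) ^ ((β i j : ℤ) - num T α c i)) ≠ 0 :=
      Finset.prod_ne_zero_iff.2 fun i _ => Finset.prod_ne_zero_iff.2 fun j _ =>
        zpow_ne_zero _ (sub_ne_zero.2 (hM.ne i j))
    refine ⟨D, ?_, ?_⟩
    · simp only [form, Fin.cases_zero, mul_one]
      exact mul_ne_zero h2 h3
    · have h4 : (fun i : Fin d => form B x T α β c ((Fin.cases 1 (fun s => x (c0 s)) i.succ : L)) D /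
          form B x T α β c ((Fin.cases 1 (fun s => x (c0 s)) (0 : Fin (d + 1)) : L)) D) =
          fun s => x (c0 s) := by
        funext s
        simp only [form, Fin.cases_zero, Fin.cases_succ, mul_one]
        rw [← mul_assoc, mul_div_right_comm, div_self (mul_ne_zero h2 h3), one_mul]
      rw [h4]
      exact hc0.1

/-- **The varieties which are dominated by subvarieties of the covers are of general type.** -/
theorem general {α : Fin N → ℕ} {β : ∀ i, Fin (B.p i) → ℕ} (hg : B.NStrong α β) {x : Fin N → L}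
    {w : Fin r → L} (hM : B.Map x w) (hd : Algebra.trdeg ℂ L = d) (hd1 : 1 ≤ d) :
    GeneralType ℂ L d := by
  classical
  have hp : ∀ i, 3 ≤ B.p i := by
    intro i
    have h1 := hg.1 i
    by_contra hcon
    have h2 : B.p i - 2 = 0 := by omega
    rw [h2, mul_zero] at h1
    omega
  obtain ⟨c0, hc0⟩ := exists_basis0 hM.alg hd
  set T : Finset (Fin N) := Finset.univ.filter fun i => Transcendental ℂ (x i) with hT
  have h1 : ∀ i, ∃ c : Fin d → Fin N, i ∈ T →
      ((∃ s, c s = i) ∧ IsTranscendenceBasis ℂ fun s => x (c s)) := by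
    intro i
    by_cases hi : i ∈ T
    · obtain ⟨c, hc⟩ := exists_basis hM.alg hd (i := i) (by
        simpa [hT] using hi)
      exact ⟨c, fun _ => hc⟩
    · exact ⟨c0, fun h => absurd h hi⟩
  choose c hc using h1
  have hc0T : ∀ s, c0 s ∈ T := by
    intro s
    simp only [hT, Finset.mem_filter, Finset.mem_univ, true_and]
    exact hc0.1.transcendental s
  have hα : ∀ i, 0 < α i := by
    intro i
    by_contra hcon
    have h2 := hg.1 i
    have h3 : α i = 0 := by omega
    rw [h3, zero_mul] at h2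
    omega
  refine general_of (T := T) (c := c) (β := β) hp hM hd
    (Finset.sum_pos (fun i _ => hα i) ⟨c0 ⟨0, hd1⟩, hc0T _⟩) (fun K hK hK0 => ?_)
    (fun i hi => ?_) fun t ht => (hc t ht).2
  · exact le_trans (Finset.sum_le_univ_sum_of_nonneg fun i => Nat.zero_le _) (hg.2 K hK hK0)
  · have hiT : i ∈ T := by simpa [hT] using hi
    have h4 := num_ge (α := α) hiT (hc i hiT).1
    have h5 := hg.1 i
    have h6 : (2 : ℕ) ≤ B.p i := by have := hp i; omega
    have h7 : ((∑ j, β i j : ℕ) : ℤ) < ((α i * (B.p i - 2) : ℕ) : ℤ) := by exact_mod_cast h5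
    rw [Nat.cast_mul, Nat.cast_sub h6] at h7
    push_cast at h7
    have h8 : (α i : ℤ) * ((B.p i : ℤ) - 2) ≤ num T α c i * ((B.p i : ℤ) - 2) := by
      refine mul_le_mul_of_nonneg_right h4 ?_
      have : (2 : ℤ) ≤ B.p i := by exact_mod_cast h6
      linarith
    linarith

/-- **The covers are of general type.** -/
theorem general_one {a : ℕ} {β : ∀ i, Fin (B.p i) → ℕ} (hg : B.NOne a β) {x : Fin N → L}
    {w : Fin r → L} (hM : B.Map x w) (hx : AlgebraicIndependent ℂ x) (hN : 1 ≤ N) :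
    GeneralType ℂ L N := by
  classical
  have hp : ∀ i, 3 ≤ B.p i := by
    intro i
    have h1 := hg.1 i
    by_contra hcon
    have h2 : B.p i - 2 = 0 := by omega
    rw [h2, mul_zero] at h1
    omega
  have hb : IsTranscendenceBasis ℂ x := by
    refine hx.isTranscendenceBasis_iff_isAlgebraic.2 ?_
    exact alg_adjoin hM.alg
  have hd : Algebra.trdeg ℂ L = N := by
    have h1 := hb.cardinalMk_eq_trdeg
    rw [Cardinal.mk_fin] at h1
    exact h1.symm
  have ha : 0 < a := by
    by_contra hcon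
    have h1 := hg.1 ⟨0, hN⟩
    have h2 : a = 0 := by omega
    rw [h2, zero_mul] at h1
    omega
  have hnum : ∀ i, num {⟨0, hN⟩} (fun _ => a) (fun _ => id) i = (a : ℤ) := by
    intro i
    unfold num
    rw [Finset.sum_singleton]
    simp
  refine general_of (T := {⟨0, hN⟩}) (α := fun _ => a) (β := β) (c := fun _ => id) hp hM hd ?_
    (fun K hK hK0 => ?_) (fun i _ => ?_) fun t ht => hb
  · rw [Finset.sum_singleton]
    exact ha
  · rw [Finset.sum_singleton]
    exact hg.2 K hK hK0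
  · rw [hnum]
    have h6 : (2 : ℕ) ≤ B.p i := by have := hp i; omega
    have h7 : ((∑ j, β i j : ℕ) : ℤ) < ((a * (B.p i - 2) : ℕ) : ℤ) := by exact_mod_cast hg.1 i
    rw [Nat.cast_mul, Nat.cast_sub h6] at h7
    push_cast at h7
    exact h7

end Pool.Agent.H583_GP
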