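import Pool.Agent.H583_GP.Rul
import Pool.Agent.H583_GP.Fns
import Pool.Agent.H583_GP.Exp
import Pool.Agent.TH466.QG.Top
import Pool.Agent.Y221.BD.Cv

/-!
The equivalence for the covers.
-/

set_option autoImplicit false
set_option linter.unusedSectionVars false

open FF IntermediateField Pool.Agent.W602.GT Pool.Agent.TH466.QG Pool.Agent.Y221.BD

namespace Pool.Agent.H583_GP

variable {N r : ℕ} {B : Branch N r}

theorem Branch.Cover.map {L : Type} [Field L] [Algebra ℂ L] {x : Fin N → L} {w : Fin r → L}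
    (hC : B.Cover x w) : B.Map x w := by
  obtain ⟨hind, heqn, hgen⟩ := hC
  refine ⟨fun i j h => ?_, heqn, ?_⟩
  · have h1 := hind.transcendental i
    rw [h] at h1
    exact h1 (isAlgebraic_algebraMap _)
  · set A : IntermediateField ℂ L := IntermediateField.adjoin ℂ (Set.range x) with hA
    have hxA : ∀ i, x i ∈ A := fun i => IntermediateField.subset_adjoin ℂ _ ⟨i, rfl⟩
    have h1 : (⊤ : IntermediateField ℂ L) ≤ (algebraicClosure A L).restrictScalars ℂ := by
      rw [← hgen, IntermediateField.adjoin_le_iff]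
      rintro y (⟨i, rfl⟩ | ⟨l, rfl⟩)
      · exact mem_algebraicClosure_iff.2 (isAlgebraic_algebraMap (⟨x i, hxA i⟩ : A))
      · refine mem_algebraicClosure_iff.2 (IsAlgebraic.of_pow (B.pos l) ?_)
        rw [heqn]
        have h2 : ∏ i, ∏ j, (x i - algebraMap ℂ L (B.a i j)) ^ B.e l i j ∈ A :=
          prod_mem fun i _ => prod_mem fun j _ => zpow_mem (sub_mem (hxA i) (A.algebraMap_mem _)) _
        exact isAlgebraic_algebraMap (⟨_, h2⟩ : A)
    exact ⟨fun y => mem_algebraicClosure_iff.1 (h1 (IntermediateField.mem_top (x := y)))⟩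

theorem Branch.Cover.trdeg {L : Type} [Field L] [Algebra ℂ L] {x : Fin N → L} {w : Fin r → L}
    (hC : B.Cover x w) : Algebra.trdeg ℂ L = N := by
  have hb : IsTranscendenceBasis ℂ x :=
    hC.ind.isTranscendenceBasis_iff_isAlgebraic.2 (alg_adjoin hC.map.alg)
  have h1 := hb.cardinalMk_eq_trdeg
  rw [Cardinal.mk_fin] at h1
  exact h1.symm

/-- **The equivalence for the covers.** -/
theorem equivalence (hB : B.Wide) (hN : 1 ≤ N) {L : Type} [Field L] [Algebra ℂ L] {x : Fin N → L}
    {w : Fin r → L} (hC : B.Cover x w) {M : ℕ} {y : Fin (M + 1) → L} (hy : y ≠ 0)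
    (hgen : coords ℂ y = ⊤) :
    (GeneralType ℂ L N ↔ PseudoBrody y) ∧ (PseudoBrody y ↔ ∀ i, 3 ≤ B.p i) := by
  by_cases hp : ∀ i, 3 ≤ B.p i
  · have hg := hB.good hp
    obtain ⟨a, β, h1⟩ := hg.one
    obtain ⟨α, β', h2⟩ := hg.nat
    have h3 := general_one h1 hC.map hC.ind hN
    have h4 := brody h2 hC.map hy hgen
    exact ⟨⟨fun _ => h4, fun _ => h3⟩, ⟨fun _ => hp, fun _ => h4⟩⟩
  · push Not at hp
    obtain ⟨i0, hi0⟩ := hp
    have hR := ruled hC (i0 := i0) (by omega)
    have h1 : ¬ PseudoBrody y := not_brody_of_ruled (K := L) hR hy hgen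
    have h2 : ¬ GeneralType ℂ L N := by
      have hK : Algebra.EssFiniteType ℂ L := essFinite hgen
      obtain ⟨-, h6, -⟩ := neg_below (K := L) (L := L) hC.trdeg hR
      exact fun h => h6 (psef_of_kodGe (kod_of_general h))
    refine ⟨⟨fun h => absurd h h2, fun h => absurd h h1⟩, ⟨fun h => absurd h h1, fun h => ?_⟩⟩
    have := h i0
    omega

end Pool.Agent.H583_GP
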