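import Pool.Agent.H583_GP.Defs
import Pool.Agent.W602.GT.Circ

/-!
The multiplicities at a place.
-/

set_option autoImplicit false

open FF Pool.Agent.W602.GT

namespace Pool.Agent.H583_GP

theorem Branch.ord_zpow_prod {L : Type} [Field L] [Algebra ℂ L] (P : Place ℂ L) {ι : Type}
    (s : Finset ι) (f : ι → L) (e : ι → ℤ) (h : ∀ i ∈ s, f i ≠ 0) :
    P.ord (∏ i ∈ s, f i ^ e i) = ∑ i ∈ s, e i * P.ord (f i) := by
  rw [ord_prod' P s (fun i => f i ^ e i) fun i hi => zpow_ne_zero _ (h i hi)]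
  exact Finset.sum_congr rfl fun i _ => P.ord_zpow _ _

variable {N r : ℕ} {B : Branch N r} {L : Type} [Field L] [Algebra ℂ L]

/-- the multiplicities and the pole orders at a place -/
theorem Branch.place (P : Place ℂ L) {x : Fin N → L} {w : Fin r → L}
    (hne : ∀ i j, x i ≠ algebraMap ℂ L (B.a i j))
    (heq : ∀ l, w l ^ B.m l = ∏ i, ∏ j, (x i - algebraMap ℂ L (B.a i j)) ^ B.e l i j) :
    ∃ (K : ∀ i, Fin (B.p i) → ℕ) (l : Fin N → ℕ), B.Adm K ∧ ∀ i,
      (l i = 0 ∧ P.Reg (x i) ∧ ∀ j, P.ord (x i - algebraMap ℂ L (B.a i j)) = K i j) ∨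
      (0 < l i ∧ K i = 0 ∧ x i ≠ 0 ∧ P.ord (x i) = -l i ∧
        ∀ c, x i - algebraMap ℂ L c ≠ 0 ∧ P.ord (x i - algebraMap ℂ L c) = -l i) := by
  classical
  have hne' : ∀ i j, x i - algebraMap ℂ L (B.a i j) ≠ 0 := fun i j => sub_ne_zero.2 (hne i j)
  have h1 : ∀ i, ∃ (K : Fin (B.p i) → ℕ) (l : ℕ),
      (l = 0 ∧ P.Reg (x i) ∧ ∀ j, P.ord (x i - algebraMap ℂ L (B.a i j)) = K j) ∨
      (0 < l ∧ K = 0 ∧ x i ≠ 0 ∧ P.ord (x i) = -l ∧
        ∀ c, x i - algebraMap ℂ L c ≠ 0 ∧ P.ord (x i - algebraMap ℂ L c) = -l) := by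
    intro i
    by_cases hr : P.Reg (x i)
    · refine ⟨fun j => (P.ord (x i - algebraMap ℂ L (B.a i j))).toNat, 0, Or.inl ⟨rfl, hr, ?_⟩⟩
      intro j
      have h2 : P.Reg (x i - algebraMap ℂ L (B.a i j)) := by
        rw [sub_eq_add_neg]
        exact P.reg_add hr (P.reg_neg (P.reg_const _))
      have h3 := (P.reg_iff (hne' i j)).1 h2
      exact (Int.toNat_of_nonneg h3).symm
    · have hx0 : x i ≠ 0 := fun h => hr (Or.inl h)
      have hlt : P.ord (x i) < 0 := by
        by_contra hcon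
        push Not at hcon
        exact hr (Or.inr hcon)
      refine ⟨0, (-P.ord (x i)).toNat, Or.inr ⟨?_, rfl, hx0, ?_, ?_⟩⟩
      · omega
      · omega
      · intro c
        have hl : ((-P.ord (x i)).toNat : ℤ) = -P.ord (x i) := Int.toNat_of_nonneg (by omega)
        rw [hl, neg_neg]
        by_cases hc : algebraMap ℂ L c = 0
        · rw [hc, sub_zero]
          exact ⟨hx0, rfl⟩
        · have hc' : c ≠ 0 := by
            rintro rfl
            exact hc (map_zero _)
          have h2 : P.ord (-algebraMap ℂ L c) = 0 := by rw [P.ord_neg, P.ord_const hc']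
          rw [sub_eq_add_neg]
          exact P.ord_add_eq hx0 (neg_ne_zero.2 hc) (by rw [h2]; exact hlt)
  choose K l h using h1
  refine ⟨K, l, ⟨?_, ?_⟩, h⟩
  · intro i j j' hj hj'
    rcases h i with ⟨-, -, h2⟩ | ⟨-, h2, -⟩
    · by_contra hne2
      have hd : B.a i j' - B.a i j ≠ 0 := sub_ne_zero.2 fun h => hne2 (B.inj i h).symm
      have e1 : algebraMap ℂ L (B.a i j' - B.a i j) =
          (x i - algebraMap ℂ L (B.a i j)) - (x i - algebraMap ℂ L (B.a i j')) := by
        rw [map_sub]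
        ring
      have h3 := P.ord_sub (hne' i j) (hne' i j') (by
        rw [← e1]
        exact (map_ne_zero _).2 hd)
      rw [← e1, P.ord_const hd, h2 j, h2 j'] at h3
      have h4 : (1 : ℤ) ≤ K i j := by
        have : 1 ≤ K i j := Nat.one_le_iff_ne_zero.2 hj
        exact_mod_cast this
      have h5 : (1 : ℤ) ≤ K i j' := by
        have : 1 ≤ K i j' := Nat.one_le_iff_ne_zero.2 hj'
        exact_mod_cast this
      have h6 : (1 : ℤ) ≤ min (K i j : ℤ) (K i j' : ℤ) := le_min h4 h5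
      omega
    · rw [h2] at hj
      exact absurd rfl hj
  · intro c
    have hR : ∀ i ∈ (Finset.univ : Finset (Fin N)),
        ∏ j, (x i - algebraMap ℂ L (B.a i j)) ^ B.e c i j ≠ 0 := fun i _ =>
      Finset.prod_ne_zero_iff.2 fun j _ => zpow_ne_zero _ (hne' i j)
    have h2 := congrArg P.ord (heq c)
    rw [P.ord_pow, ord_prod' P Finset.univ _ hR] at h2
    have h3 : ∀ i, P.ord (∏ j, (x i - algebraMap ℂ L (B.a i j)) ^ B.e c i j) =
        ∑ j, B.e c i j * P.ord (x i - algebraMap ℂ L (B.a i j)) := fun i =>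
      Branch.ord_zpow_prod P _ _ _ fun j _ => hne' i j
    rw [Finset.sum_congr rfl fun i _ => h3 i] at h2
    have h4 : ∀ i, (B.m c : ℤ) ∣ ∑ j, B.e c i j * (K i j : ℤ) -
        ∑ j, B.e c i j * P.ord (x i - algebraMap ℂ L (B.a i j)) := by
      intro i
      rcases h i with ⟨-, -, h5⟩ | ⟨-, h5, -, -, h6⟩
      · have : ∑ j, B.e c i j * P.ord (x i - algebraMap ℂ L (B.a i j)) =
            ∑ j, B.e c i j * (K i j : ℤ) := Finset.sum_congr rfl fun j _ => by rw [h5 j]
        rw [this, sub_self]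
        exact dvd_zero _
      · have e1 : ∑ j, B.e c i j * P.ord (x i - algebraMap ℂ L (B.a i j)) =
            -(l i : ℤ) * ∑ j, B.e c i j := by
          rw [Finset.mul_sum]
          exact Finset.sum_congr rfl fun j _ => by rw [(h6 _).2]; ring
        have e2 : ∑ j, B.e c i j * (K i j : ℤ) = 0 := by
          rw [h5]
          simp
        rw [e1, e2, zero_sub, neg_mul, neg_neg]
        exact (B.inf c i).mul_left _
    have h5 : (B.m c : ℤ) ∣ ∑ i, (∑ j, B.e c i j * (K i j : ℤ) -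
        ∑ j, B.e c i j * P.ord (x i - algebraMap ℂ L (B.a i j))) :=
      Finset.dvd_sum fun i _ => h4 i
    rw [Finset.sum_sub_distrib, ← h2] at h5
    have h6 := dvd_add h5 (dvd_mul_right (B.m c : ℤ) (P.ord (w c)))
    rwa [sub_add_cancel] at h6

end Pool.Agent.H583_GP
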