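import Pool.Agent.H583_GP.Ana2
import Pool.Agent.H583_GP.Plc
import Pool.Agent.Y221.AB.Wei
import Pool.Agent.Y221.AB.Ct
import Pool.Agent.Y221.AB.Eng2

/-!
Meromorphic curves in the covers are constant.
-/

set_option autoImplicit false
set_option linter.unusedSectionVars false

open FF Filter Topology Pool.Agent.TH143.EL Pool.Agent.Y221.AB

namespace Pool.Agent.H583_GP

/-! ### the places of the field of meromorphic functions -/

/-- the order -/
noncomputable def oz (z : ℂ) (x : MK) : ℤ := (odr x z).untop₀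

theorem oz_coe {x : MK} (hx : x ≠ 0) (z : ℂ) : ((oz z x : ℤ) : WithTop ℤ) = odr x z :=
  WithTop.coe_untop₀_of_ne_top (odr_ne_top hx z)

theorem oz_mul {x y : MK} (hx : x ≠ 0) (hy : y ≠ 0) (z : ℂ) : oz z (x * y) = oz z x + oz z y := by
  have h1 := odr_mul x y z
  rw [← oz_coe hx, ← oz_coe hy, ← oz_coe (mul_ne_zero hx hy)] at h1
  exact_mod_cast h1

theorem odr_add (x y : MK) (z : ℂ) : min (odr x z) (odr y z) ≤ odr (x + y) z := by
  unfold odr
  rw [meromorphicOrderAt_congr (codis_ev (Fn_add_codis x y) z)]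
  exact meromorphicOrderAt_add (Fn_mero x z) (Fn_mero y z)

theorem odr_const {c : ℂ} (hc : c ≠ 0) (z : ℂ) : odr (algebraMap ℂ MK c) z = 0 := by
  rw [odr_zero_iff]
  have h := (Fn_const c z).self_of_nhds
  rw [h]
  exact hc

/-- the place of a point -/
noncomputable def ptP (z : ℂ) : Place ℂ MK where
  ord := oz z
  ord_zero := by
    unfold oz
    have h1 : odr (0 : MK) z = ⊤ := by
      unfold odr
      rw [meromorphicOrderAt_eq_top_iff]
      refine codis_ev (p := fun w => Fn 0 w = 0) ?_ z
      exact cl_eq_zero.1 (cl_Fn (0 : MK))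
    rw [h1, WithTop.untop₀_top]
  ord_mul := fun hf hg => oz_mul hf hg z
  ord_add := by
    intro f g hf hg hfg
    have h1 := odr_add f g z
    rw [← oz_coe hf, ← oz_coe hg, ← oz_coe hfg] at h1
    exact_mod_cast h1
  ord_const := by
    intro c hc
    have h1 := odr_const hc z
    unfold oz
    rw [h1]
    rfl
  surj := by
    have hm : Meromorphic fun w : ℂ => w - z := fun w =>
      (analyticAt_id.sub analyticAt_const).meromorphicAt
    have h1 : meromorphicOrderAt (fun w : ℂ => w - z) z = 1 := by
      have := meromorphicOrderAt_id_sub_const (𝕜 := ℂ) (x := z)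
      exact this
    have h2 := odr_cl hm z
    rw [h1] at h2
    refine ⟨cl _ hm, fun h0 => ?_, ?_⟩
    · rw [h0] at h2
      have h3 : odr (0 : MK) z = ⊤ := by
        unfold odr
        rw [meromorphicOrderAt_eq_top_iff]
        refine codis_ev (p := fun w => Fn 0 w = 0) ?_ z
        exact cl_eq_zero.1 (cl_Fn (0 : MK))
      rw [h3] at h2
      exact absurd h2 (by decide)
    · unfold oz
      rw [h2]
      rfl

theorem ptP_ord (z : ℂ) (x : MK) : (ptP z).ord x = oz z x := rfl

theorem oz_of_analytic {x : MK} (hx : x ≠ 0) {z : ℂ} (hr : Reg x z) {n : ℕ}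
    (hn : analyticOrderAt (Fn x) z = n) : oz z x = n := by
  have h1 : odr x z = ((n : ℤ) : WithTop ℤ) := by
    unfold odr
    rw [AnalyticAt.meromorphicOrderAt_eq hr, hn]
    rfl
  have h2 := oz_coe hx z
  rw [h1] at h2
  exact_mod_cast h2

theorem oz_zero_iff {x : MK} (hx : x ≠ 0) {z : ℂ} : oz z x = 0 ↔ Fn x z ≠ 0 := by
  rw [← odr_zero_iff, ← oz_coe hx]
  exact ⟨fun h => by rw [h]; rfl, fun h => by exact_mod_cast h⟩

theorem oz_nonneg {x : MK} (hx : x ≠ 0) {z : ℂ} (hr : Reg x z) : 0 ≤ oz z x := by
  have h1 := reg_iff.1 hr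
  rw [← oz_coe hx] at h1
  exact_mod_cast h1

/-! ### the system of functions -/

variable {N r : ℕ} {B : Branch N r}

/-- **Meromorphic curves in the covers are constant.** -/
theorem mero_const {α : Fin N → ℕ} {β : ∀ i, Fin (B.p i) → ℕ} (hg : B.NGood α β) {x : Fin N → MK}
    {w : Fin r → MK} (hne : ∀ i j, x i ≠ algebraMap ℂ MK (B.a i j))
    (heq : ∀ l, w l ^ B.m l = ∏ i, ∏ j, (x i - algebraMap ℂ MK (B.a i j)) ^ B.e l i j) (i : Fin N) :
    ∃ c, x i = algebraMap ℂ MK c := by
  classical
  by_contra hcon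
  obtain ⟨hαβ, hgk⟩ := hg
  have hp : ∀ i, 3 ≤ B.p i := by
    intro i
    have h1 := hαβ i
    by_contra hcon
    have h2 : B.p i - 2 = 0 := by omega
    rw [h2, mul_zero] at h1
    omega
  have hT : Nonempty {i : Fin N // ¬ ∃ c, x i = algebraMap ℂ MK c} := ⟨⟨i, hcon⟩⟩
  clear hcon i
  have hn1 : ∀ i : Fin N, ∃ e U, Nrm (p := 1) ![1, x i] e U := fun i =>
    exists_nrm (p := 1) ![1, x i] (i0 := 0) rfl
  choose e U hN using hn1
  have hU0 : ∀ i, U i 0 = Fn (e i) := fun i => by
    have := (hN i).eq 0
    rw [this]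
    congr 1
    simp
  have hU1 : ∀ i, U i 1 = Fn (e i * x i) := fun i => (hN i).eq 1
  have hr0 : ∀ i z, Reg (e i) z := fun i z => by
    have := (hN i).reg 0 z
    simpa using this
  have hr1 : ∀ i z, Reg (e i * x i) z := fun i z => (hN i).reg 1 z
  -- the linear forms
  have hlin : ∀ (i : Fin N) (c : ℂ) (z : ℂ), Reg (e i * (x i - algebraMap ℂ MK c)) z ∧
      Fn (e i * (x i - algebraMap ℂ MK c)) =ᶠ[𝓝 z] fun w => U i 1 w - c * U i 0 w := by
    intro i c z
    have h1 : e i * (x i - algebraMap ℂ MK c) = e i * x i + algebraMap ℂ MK (-c) * e i := by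
      rw [map_neg]
      ring
    rw [h1]
    have h2 : Reg (algebraMap ℂ MK (-c) * e i) z := (reg_const _ z).mul (hr0 i z)
    refine ⟨(hr1 i z).add h2, ?_⟩
    filter_upwards [Fn_add (hr1 i z) h2, Fn_mul (reg_const (-c) z) (hr0 i z),
      Fn_const (-c) z] with w h3 h4 h5
    rw [h3, h4, h5, hU0, hU1]
    ring
  have hxa : ∀ i j, x i - algebraMap ℂ MK (B.a i j) ≠ 0 := fun i j => sub_ne_zero.2 (hne i j)
  let q : {i : Fin N // ¬ ∃ c, x i = algebraMap ℂ MK c} → ℕ := fun i => B.p i
  let a : ∀ i : {i : Fin N // ¬ ∃ c, x i = algebraMap ℂ MK c}, Fin (q i) → ℂ := fun i j => B.a i j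
  let f : {i : Fin N // ¬ ∃ c, x i = algebraMap ℂ MK c} → ℂ → ℂ := fun i => U i 0
  let g : {i : Fin N // ¬ ∃ c, x i = algebraMap ℂ MK c} → ℂ → ℂ := fun i => U i 1
  have hell : ∀ (i : {i : Fin N // ¬ ∃ c, x i = algebraMap ℂ MK c}) (j : Fin (B.p i)) (z : ℂ),
      Fn (e i * (x i - algebraMap ℂ MK (B.a i j))) =ᶠ[𝓝 z] ell a f g i j :=
    fun i j z => (hlin i _ z).2
  have hdf : ∀ i, Differentiable ℂ (f i) := by
    intro i z
    have : AnalyticAt ℂ (f i) z := by
      change AnalyticAt ℂ (U i 0) z
      rw [hU0]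
      exact hr0 i z
    exact this.differentiableAt
  have hdg : ∀ i, Differentiable ℂ (g i) := by
    intro i z
    have : AnalyticAt ℂ (g i) z := by
      change AnalyticAt ℂ (U i 1) z
      rw [hU1]
      exact hr1 i z
    exact this.differentiableAt
  have hS : Sys a (fun i => α i) (fun i => β i) f g := by
    refine ⟨hdf, hdg, ?_, ?_, ?_⟩
    · intro i z
      obtain ⟨s, hs⟩ := (hN i).nz z
      fin_cases s
      · exact Or.inl hs
      · exact Or.inr hs
    · intro i j
      by_contra hcon
      push Not at hcon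
      have h1 : e i * (x i - algebraMap ℂ MK (B.a i j)) = 0 := by
        rw [← cl_Fn (e i * (x i - algebraMap ℂ MK (B.a i j))), cl_eq_zero]
        refine codis_of_ev' fun z => ?_
        filter_upwards [hell i j z] with w hw
        rw [hw]
        exact hcon w
      exact (mul_ne_zero (hN i).ne (hxa i j)) h1
    · intro z k hk
      obtain ⟨K, l, hK, hP⟩ := Branch.place (ptP z) hne heq
      -- the order of the normalising factor
      have he : ∀ i : Fin N, oz z (e i) = l i := by
        intro i
        have hx0 : x i ≠ 0 → oz z (e i * x i) = oz z (e i) + oz z (x i) := fun h =>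
          oz_mul (hN i).ne h z
        have h0 := oz_nonneg (hN i).ne (hr0 i z)
        rcases hP i with ⟨h1, h2, -⟩ | ⟨h1, -, h2, h3, -⟩
        · rw [h1]
          obtain ⟨s, hs⟩ := (hN i).nz z
          fin_cases s
          · change U i 0 z ≠ 0 at hs
            rw [hU0] at hs
            rw [(oz_zero_iff (hN i).ne).2 hs]
            rfl
          · change U i 1 z ≠ 0 at hs
            rw [hU1] at hs
            have hxi : x i ≠ 0 := by
              rintro h4
              rw [h4, mul_zero] at hs
              exact hs (map_zero (evO z))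
            have h5 := (oz_zero_iff (mul_ne_zero (hN i).ne hxi)).2 hs
            rw [hx0 hxi] at h5
            have h6 := h2.resolve_left hxi
            rw [ptP_ord] at h6
            push_cast
            omega
        · rw [ptP_ord] at h3
          have h4 := oz_nonneg (mul_ne_zero (hN i).ne h2) (hr1 i z)
          rw [hx0 h2, h3] at h4
          obtain ⟨s, hs⟩ := (hN i).nz z
          fin_cases s
          · change U i 0 z ≠ 0 at hs
            rw [hU0] at hs
            have h5 := (oz_zero_iff (hN i).ne).2 hs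
            omega
          · change U i 1 z ≠ 0 at hs
            rw [hU1] at hs
            have h5 := (oz_zero_iff (mul_ne_zero (hN i).ne h2)).2 hs
            rw [hx0 h2, h3] at h5
            omega
      have hkK : ∀ i : {i : Fin N // ¬ ∃ c, x i = algebraMap ℂ MK c}, k i = K i := by
        intro i
        funext j
        have h1 : analyticOrderAt (Fn (e i * (x i - algebraMap ℂ MK (B.a i j)))) z = k i j := by
          rw [analyticOrderAt_congr (hell i j z)]
          exact hk i j
        have h2 := oz_of_analytic (mul_ne_zero (hN i).ne (hxa i j)) (hlin i _ z).1 h1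
        rw [oz_mul (hN i).ne (hxa i j), he] at h2
        rcases hP i with ⟨h3, -, h4⟩ | ⟨-, h3, -, -, h4⟩
        · have h5 := h4 j
          rw [ptP_ord] at h5
          rw [h5, h3] at h2
          have h6 : ((K i j : ℕ) : ℤ) = (k i j : ℤ) := by
            rw [← h2]
            push_cast
            ring
          exact_mod_cast h6.symm
        · have h5 := (h4 (B.a i j)).2
          rw [ptP_ord] at h5
          rw [h5] at h2
          have h6 : (k i j : ℤ) = 0 := by
            rw [← h2]
            ring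
          rw [h3]
          exact_mod_cast h6
      have hKc : ∀ i : Fin N, ¬ (¬ ∃ c, x i = algebraMap ℂ MK c) → K i = 0 := by
        intro i hi
        push Not at hi
        obtain ⟨c, hc⟩ := hi
        rcases hP i with ⟨-, -, h4⟩ | ⟨-, h3, -⟩
        · funext j
          have h5 := h4 j
          rw [hc, ← map_sub, (ptP z).ord_const] at h5
          · exact_mod_cast h5.symm
          · intro h6
            exact hne i j (by rw [hc, sub_eq_zero.1 h6])
        · exact h3
      have h1 := hgk K hK
      have hsub : ∀ F : Fin N → ℕ, (∀ i, K i = 0 → F i = 0) →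
          ∑ i : {i : Fin N // ¬ ∃ c, x i = algebraMap ℂ MK c}, F i = ∑ i, F i := by
        intro F hF
        rw [← Finset.sum_subtype (Finset.univ.filter fun i => ¬ ∃ c, x i = algebraMap ℂ MK c)
          (fun i => by simp) F]
        refine Finset.sum_subset (Finset.subset_univ _) fun i _ hi => ?_
        exact hF i (hKc i (by simpa using hi))
      have h2 := hsub (fun i => if K i = 0 then 0 else α i) fun i hi => if_pos hi
      have h3 := hsub (fun i => ∑ j, β i j * K i j) fun i hi => by
        rw [hi]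
        simp
      rw [← h2, ← h3] at h1
      have e1 : ∑ i : {i : Fin N // ¬ ∃ c, x i = algebraMap ℂ MK c}, (if k i = 0 then 0 else α i) =
          ∑ i : {i : Fin N // ¬ ∃ c, x i = algebraMap ℂ MK c}, (if K i = 0 then 0 else α i) :=
        Finset.sum_congr rfl fun i _ => by rw [hkK]
      have e2 : ∑ i : {i : Fin N // ¬ ∃ c, x i = algebraMap ℂ MK c}, ∑ j, β i j * k i j =
          ∑ i : {i : Fin N // ¬ ∃ c, x i = algebraMap ℂ MK c}, ∑ j, β i j * K i j :=
        Finset.sum_congr rfl fun i _ => by rw [hkK]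
      exact (le_of_eq e1).trans (h1.trans (le_of_eq e2.symm))
  refine no_curves (a := a) (α := fun i => α i) (β := fun i => β i) (f := f) (g := g)
    (fun i => B.inj i) (fun i => hp i) (fun i => hαβ i) hS fun i => ?_
  by_contra hcon
  push Not at hcon
  refine i.2 (MD_zero ?_)
  have h1 : e i * MD (e i * x i) - MD (e i) * (e i * x i) = 0 := by
    have h0 : e i * MD (e i * x i) - MD (e i) * (e i * x i) =
        e i * MD (e i * x i) + algebraMap ℂ MK (-1) * (MD (e i) * (e i * x i)) := by
      rw [map_neg, map_one]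
      ring
    rw [h0, ← cl_Fn (e i * MD (e i * x i) + algebraMap ℂ MK (-1) * (MD (e i) * (e i * x i))),
      cl_eq_zero]
    refine codis_of_ev' fun z => ?_
    have r1 := (hr0 i z).mul (hr1 i z).MD
    have r2 := ((hr0 i z).MD).mul (hr1 i z)
    have r3 := (reg_const (-1) z).mul r2
    filter_upwards [Fn_add r1 r3, Fn_mul (hr0 i z) (hr1 i z).MD, Fn_mul (reg_const (-1) z) r2,
      Fn_const (-1) z, Fn_mul (hr0 i z).MD (hr1 i z), Fn_MD (hr0 i z), Fn_MD (hr1 i z)]
      with w e1 e2 e3 e4 e5 e6 e7
    rw [e1, e2, e3, e4, e5, e6, e7]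
    have h2 := hcon w
    change U i 0 w * deriv (U i 1) w - deriv (U i 0) w * U i 1 w = 0 at h2
    rw [hU0, hU1] at h2
    linear_combination h2
  have h2 : e i * MD (e i * x i) - MD (e i) * (e i * x i) = e i ^ 2 * MD (x i) := by
    rw [MD_mul]
    ring
  rw [h2] at h1
  exact (mul_eq_zero.1 h1).resolve_left (pow_ne_zero 2 (hN i).ne)

end Pool.Agent.H583_GP
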