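import Pool.Agent.H583_GP.Str

/-!
The covers with at most two branch points on one of the lines are ruled.
-/

set_option autoImplicit false
set_option linter.unusedSectionVars false

open FF IntermediateField Pool.Agent.W602.GT

namespace Pool.Agent.H583_GP

/-- a line with at most two branch points -/
theorem one_line {L : Type} [Field L] [Algebra ℂ L] {X : L} (hX : Transcendental ℂ X) {q : ℕ}
    (hq : q ≤ 2) (a : Fin q → ℂ) (ha : Function.Injective a) {r : ℕ} (m : Fin r → ℕ)
    (e : Fin r → Fin q → ℤ) (he : ∀ l, (m l : ℤ) ∣ ∑ j, e l j) :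
    ∃ (t : L) (u : Fin r → L) (n : Fin r → ℤ), t ≠ 0 ∧ (∀ l, u l ≠ 0) ∧
      (∀ l, ∏ j, (X - algebraMap ℂ L (a j)) ^ e l j = t ^ n l * u l ^ m l) ∧
      ∀ S : IntermediateField ℂ L, t ∈ S → X ∈ S ∧ ∀ l, u l ∈ S := by
  have hXc : ∀ c : ℂ, X - algebraMap ℂ L c ≠ 0 := by
    intro c h
    rw [sub_eq_zero.1 h] at hX
    exact hX (isAlgebraic_algebraMap c)
  have hX0 : X ≠ 0 := by
    have := hXc 0
    rwa [map_zero, sub_zero] at this
  choose c hc using he
  obtain rfl | rfl | rfl : q = 0 ∨ q = 1 ∨ q = 2 := by omega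
  · refine ⟨X, fun _ => 1, fun _ => 0, hX0, fun _ => one_ne_zero, fun l => ?_, fun S hS =>
      ⟨hS, fun _ => one_mem S⟩⟩
    simp
  · refine ⟨X, fun l => (X - algebraMap ℂ L (a 0)) ^ c l, fun _ => 0, hX0,
      fun l => zpow_ne_zero _ (hXc _), fun l => ?_, fun S hS => ⟨hS, fun l => ?_⟩⟩
    · have h1 := hc l
      rw [Fin.sum_univ_one] at h1
      rw [Fin.prod_univ_one, zpow_zero, one_mul, h1, mul_comm, zpow_mul, zpow_natCast]
    · exact zpow_mem (sub_mem hS (S.algebraMap_mem _)) _
  · have h01 : a 0 - a 1 ≠ 0 := sub_ne_zero.2 fun h => absurd (ha h) (by decide)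
    set A : L := X - algebraMap ℂ L (a 0) with hA
    set A' : L := X - algebraMap ℂ L (a 1) with hA'
    have hA0 : A ≠ 0 := hXc _
    have hA1 : A' ≠ 0 := hXc _
    refine ⟨A / A', fun l => A' ^ c l, fun l => e l 0, div_ne_zero hA0 hA1,
      fun l => zpow_ne_zero _ hA1, fun l => ?_, fun S hS => ?_⟩
    · have h1 := hc l
      rw [Fin.sum_univ_two] at h1
      rw [Fin.prod_univ_two, ← zpow_natCast, ← zpow_mul, mul_comm (c l), ← h1, div_zpow,
        zpow_add₀ hA1]
      have h2 : A' ^ e l 0 ≠ 0 := zpow_ne_zero _ hA1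
      field_simp
      rfl
    · have h3 : X ∈ S := by
        have h4 : (1 : L) - A / A' ≠ 0 := by
          intro h
          have h5 : A' = A := by
            field_simp at h
            linear_combination h
          have h6 : algebraMap ℂ L (a 0 - a 1) = 0 := by
            rw [map_sub]
            rw [hA, hA'] at h5
            linear_combination h5
          exact h01 ((map_eq_zero _).1 h6)
        have h5 : X = (algebraMap ℂ L (a 0) - algebraMap ℂ L (a 1) * (A / A')) / (1 - A / A') := by
          rw [eq_div_iff h4]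
          field_simp
          rw [hA, hA']
          ring
        rw [h5]
        exact div_mem (sub_mem (S.algebraMap_mem _) (mul_mem (S.algebraMap_mem _) hS))
          (sub_mem (one_mem S) hS)
      exact ⟨h3, fun l => zpow_mem (sub_mem h3 (S.algebraMap_mem _)) _⟩

/-- monomials -/
noncomputable def mono {L : Type} [Field L] {r : ℕ} (t : L) (v : Fin r → L)
    (p : ℤ × (Fin r → ℤ)) : L := t ^ p.1 * ∏ l, v l ^ p.2 l

section mono

variable {L : Type} [Field L] {r : ℕ} {t : L} {v : Fin r → L}

theorem mono_ne (ht : t ≠ 0) (hv : ∀ l, v l ≠ 0) (p : ℤ × (Fin r → ℤ)) : mono t v p ≠ 0 :=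
  mul_ne_zero (zpow_ne_zero _ ht) (Finset.prod_ne_zero_iff.2 fun l _ => zpow_ne_zero _ (hv l))

theorem mono_add (ht : t ≠ 0) (hv : ∀ l, v l ≠ 0) (p q : ℤ × (Fin r → ℤ)) :
    mono t v (p + q) = mono t v p * mono t v q := by
  unfold mono
  rw [Prod.fst_add, Prod.snd_add, zpow_add₀ ht]
  have h1 : ∏ l, v l ^ (p.2 + q.2) l = (∏ l, v l ^ p.2 l) * ∏ l, v l ^ q.2 l := by
    rw [← Finset.prod_mul_distrib]
    exact Finset.prod_congr rfl fun l _ => by rw [Pi.add_apply, zpow_add₀ (hv l)]
  rw [h1]
  ring

theorem mono_smul (k : ℤ) (p : ℤ × (Fin r → ℤ)) : mono t v (k • p) = mono t v p ^ k := by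
  unfold mono
  rw [Prod.smul_fst, Prod.smul_snd, mul_zpow, ← Finset.prod_zpow, smul_eq_mul, mul_comm k, zpow_mul]
  congr 1
  exact Finset.prod_congr rfl fun l _ => by rw [Pi.smul_apply, smul_eq_mul, mul_comm k, zpow_mul]

end mono

variable {N r : ℕ} {B : Branch N r}

/-- **The covers with at most two branch points on one of the lines are ruled.** -/
theorem ruled {L : Type} [Field L] [Algebra ℂ L] {x : Fin N → L} {w : Fin r → L}
    (hC : B.Cover x w) {i0 : Fin N} (hi0 : B.p i0 ≤ 2) : Ruled ℂ L := by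
  classical
  obtain ⟨hind, heqn, hgen⟩ := hC
  have htr : ∀ i, Transcendental ℂ (x i) := fun i => hind.transcendental i
  have hxa : ∀ i j, x i - algebraMap ℂ L (B.a i j) ≠ 0 := by
    intro i j h
    have := htr i
    rw [sub_eq_zero.1 h] at this
    exact this (isAlgebraic_algebraMap _)
  obtain ⟨t, u, n, ht, hu, htu, hmem⟩ := one_line (htr i0) hi0 (B.a i0) (B.inj i0) B.m
    (fun l => B.e l i0) (fun l => B.inf l i0)
  set h : Fin r → L := fun l => ∏ i ∈ Finset.univ.erase i0,
    ∏ j, (x i - algebraMap ℂ L (B.a i j)) ^ B.e l i j with hh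
  have hh0 : ∀ l, h l ≠ 0 := fun l => Finset.prod_ne_zero_iff.2 fun i _ =>
    Finset.prod_ne_zero_iff.2 fun j _ => zpow_ne_zero _ (hxa i j)
  have heq : ∀ l, w l ^ B.m l = t ^ n l * u l ^ B.m l * h l := by
    intro l
    rw [heqn, ← Finset.mul_prod_erase Finset.univ _ (Finset.mem_univ i0), htu l]
  have hw0 : ∀ l, w l ≠ 0 := by
    intro l h0
    have h1 := heq l
    rw [h0, zero_pow (B.pos l).ne'] at h1
    exact (mul_ne_zero (mul_ne_zero (zpow_ne_zero _ ht) (pow_ne_zero _ (hu l))) (hh0 l)) h1.symm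
  set v : Fin r → L := fun l => w l / u l with hv
  have hv0 : ∀ l, v l ≠ 0 := fun l => div_ne_zero (hw0 l) (hu l)
  have hveq : ∀ l, v l ^ B.m l = t ^ n l * h l := by
    intro l
    have h1 := pow_ne_zero (B.m l) (hu l)
    rw [hv]
    simp only
    rw [div_pow, heq]
    field_simp
  -- the weights
  set mh : ℕ := ∏ l, B.m l with hmh
  have hmh0 : 0 < mh := Finset.prod_pos fun l _ => B.pos l
  have hdiv : ∀ l, ∃ c : ℕ, mh = B.m l * c := fun l => Finset.dvd_prod_of_mem _ (Finset.mem_univ l)
  choose c hc using hdiv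
  let wt : (ℤ × (Fin r → ℤ)) →ₗ[ℤ] ℤ :=
    { toFun := fun p => p.1 * mh + ∑ l, p.2 l * (n l * c l)
      map_add' := by
        intro p q
        rw [Prod.fst_add, Prod.snd_add]
        simp only [Pi.add_apply, add_mul, Finset.sum_add_distrib]
        ring
      map_smul' := by
        intro k p
        simp only [Prod.smul_fst, Prod.smul_snd, Pi.smul_apply, smul_eq_mul, RingHom.id_apply,
          mul_add, Finset.mul_sum]
        congr 1
        · ring
        · exact Finset.sum_congr rfl fun l _ => by ring }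
  have hwt : ∀ p, wt p = p.1 * mh + ∑ l, p.2 l * (n l * c l) := fun p => rfl
  obtain ⟨g, hg⟩ := (IsPrincipalIdealRing.principal (LinearMap.range wt)).principal
  obtain ⟨p0, hp0⟩ : ∃ p0, wt p0 = g := by
    have : g ∈ LinearMap.range wt := by
      rw [hg]
      exact Submodule.mem_span_singleton_self g
    exact this
  have hdvd : ∀ p, ∃ k : ℤ, wt p = k * g := by
    intro p
    have h1 : wt p ∈ LinearMap.range wt := ⟨p, rfl⟩
    rw [hg, Submodule.mem_span_singleton] at h1
    obtain ⟨k, hk⟩ := h1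
    exact ⟨k, by rw [← hk, smul_eq_mul]⟩
  set C : IntermediateField ℂ L := IntermediateField.adjoin ℂ
    ((x '' {i | i ≠ i0}) ∪ {y | ∃ p, wt p = 0 ∧ y = mono t v p}) with hCdef
  set σ : L := mono t v p0 with hσ
  have hσ0 : σ ≠ 0 := mono_ne ht hv0 _
  have hmono : ∀ p, ∃ y ∈ C, ∃ k : ℤ, mono t v p = y * σ ^ k := by
    intro p
    obtain ⟨k, hk⟩ := hdvd p
    refine ⟨mono t v (p + (-k) • p0), IntermediateField.subset_adjoin ℂ _ (Or.inr ⟨_, ?_, rfl⟩), k, ?_⟩
    · rw [map_add, map_smul, hk, hp0, smul_eq_mul]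
      ring
    · rw [mono_add ht hv0, mono_smul, mul_assoc, ← zpow_add₀ hσ0, neg_add_cancel, zpow_zero, mul_one]
  have htop : IntermediateField.adjoin C {σ} = ⊤ := by
    set F := (IntermediateField.adjoin C {σ}).restrictScalars ℂ with hF
    have hCF : ∀ y ∈ C, y ∈ F := by
      intro y hy
      exact (IntermediateField.adjoin C {σ}).algebraMap_mem (⟨y, hy⟩ : C)
    have hσF : σ ∈ F := IntermediateField.mem_adjoin_simple_self C σ
    have hmF : ∀ p, mono t v p ∈ F := by
      intro p
      obtain ⟨y, hy, k, hk⟩ := hmono p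
      rw [hk]
      exact mul_mem (hCF y hy) (zpow_mem hσF k)
    have htF : t ∈ F := by
      have h1 := hmF (1, 0)
      simpa [mono] using h1
    have h2 := hmem F htF
    have hFtop : F = ⊤ := by
      rw [eq_top_iff, ← hgen, IntermediateField.adjoin_le_iff]
      rintro y (⟨i, rfl⟩ | ⟨l, rfl⟩)
      · by_cases hi : i = i0
        · rw [hi]
          exact h2.1
        · exact hCF _ (IntermediateField.subset_adjoin ℂ _ (Or.inl ⟨i, hi, rfl⟩))
      · have h3 : v l ∈ F := by
          have h4 := hmF (0, Pi.single l 1)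
          have h5 : mono t v (0, Pi.single l 1) = v l := by
            unfold mono
            rw [zpow_zero, one_mul, Finset.prod_eq_single l]
            · change v l ^ (Pi.single l 1 : Fin r → ℤ) l = v l
              rw [Pi.single_eq_same, zpow_one]
            · intro l' _ hne
              change v l' ^ (Pi.single l 1 : Fin r → ℤ) l' = 1
              rw [Pi.single_eq_of_ne hne, zpow_zero]
            · intro h6
              exact absurd (Finset.mem_univ l) h6
          rwa [h5] at h4
        have h4 : w l = v l * u l := (div_mul_cancel₀ _ (hu l)).symm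
        rw [h4]
        exact mul_mem h3 (h2.2 l)
    rw [eq_top_iff]
    intro y _
    have h3 : y ∈ F := by
      rw [hFtop]
      exact IntermediateField.mem_top
    exact h3
  refine ⟨C, σ, ?_, htop⟩
  -- transcendence
  intro hσa
  set A : IntermediateField ℂ L := IntermediateField.adjoin ℂ (x '' {i | i ≠ i0}) with hAdef
  have hxA : ∀ i, i ≠ i0 → x i ∈ A := fun i hi => IntermediateField.subset_adjoin ℂ _ ⟨i, hi, rfl⟩
  have hhA : ∀ l, h l ∈ A := by
    intro l
    refine prod_mem fun i hi => prod_mem fun j _ => zpow_mem (sub_mem (hxA i ?_)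
      (A.algebraMap_mem _)) _
    exact (Finset.mem_erase.1 hi).1
  have hmonoA : ∀ p, wt p = 0 → mono t v p ^ mh ∈ A := by
    intro p hp
    have h1 : mono t v p ^ mh = ∏ l, h l ^ (p.2 l * (c l : ℤ)) := by
      unfold mono
      rw [mul_pow, ← Finset.prod_pow]
      have h2 : ∀ l, (v l ^ p.2 l) ^ mh = t ^ (p.2 l * (n l * c l)) * h l ^ (p.2 l * (c l : ℤ)) := by
        intro l
        have h3 : (v l ^ p.2 l) ^ mh = (v l ^ B.m l) ^ (p.2 l * (c l : ℤ)) := by
          rw [← zpow_natCast (v l ^ p.2 l), ← zpow_mul, ← zpow_natCast (v l), ← zpow_mul]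
          congr 1
          rw [hc l]
          push_cast
          ring
        rw [h3, hveq, mul_zpow, ← zpow_mul]
        congr 2
        ring
      rw [Finset.prod_congr rfl fun l _ => h2 l, Finset.prod_mul_distrib, ← mul_assoc]
      have h4 : (t ^ p.1) ^ mh * ∏ l, t ^ (p.2 l * (n l * c l)) = 1 := by
        have h5 : ∏ l, t ^ (p.2 l * (n l * c l)) = t ^ (∑ l, p.2 l * (n l * c l)) := by
          have : ∀ s : Finset (Fin r), ∏ l ∈ s, t ^ (p.2 l * (n l * c l)) =
              t ^ (∑ l ∈ s, p.2 l * (n l * c l)) := by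
            intro s
            induction s using Finset.induction_on with
            | empty => simp
            | insert a s ha ih => rw [Finset.prod_insert ha, Finset.sum_insert ha, ih, zpow_add₀ ht]
          exact this _
        rw [h5, ← zpow_natCast (t ^ p.1), ← zpow_mul, ← zpow_add₀ ht]
        rw [hwt] at hp
        rw [hp, zpow_zero]
      rw [h4, one_mul]
    rw [h1]
    exact prod_mem fun l _ => zpow_mem (hhA l) _
  have hCA : ∀ y ∈ C, IsAlgebraic A y := by
    intro y hy
    have h1 : C ≤ (algebraicClosure A L).restrictScalars ℂ := by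
      rw [hCdef, IntermediateField.adjoin_le_iff]
      rintro z (⟨i, hi, rfl⟩ | ⟨p, hp, rfl⟩)
      · exact mem_algebraicClosure_iff.2 (isAlgebraic_algebraMap (⟨x i, hxA i hi⟩ : A))
      · refine mem_algebraicClosure_iff.2 (IsAlgebraic.of_pow hmh0 ?_)
        exact isAlgebraic_algebraMap (⟨_, hmonoA p hp⟩ : A)
    exact mem_algebraicClosure_iff.1 (h1 hy)
  have hLC : Algebra.IsAlgebraic C L := by
    have h1 : Algebra.IsAlgebraic C (IntermediateField.adjoin C {σ}) :=
      IntermediateField.isAlgebraic_adjoin fun y hy => by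
        rw [Set.mem_singleton_iff.1 hy]
        exact hσa.isIntegral
    rw [htop] at h1
    exact (IntermediateField.topEquiv (F := C) (E := L)).isAlgebraic
  have hLA : Algebra.IsAlgebraic A L := by
    refine ⟨fun y => ?_⟩
    obtain ⟨P, hP0, hP⟩ := hLC.isAlgebraic y
    let φ : C →+* algebraicClosure A L := (algebraMap C L).codRestrict (algebraicClosure A L).toSubfield
      fun z => mem_algebraicClosure_iff.2 (hCA z z.2)
    have h1 : IsAlgebraic (algebraicClosure A L) y := by
      refine ⟨P.map φ, ?_, ?_⟩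
      · rw [Ne, Polynomial.map_eq_zero]
        exact hP0
      · rw [Polynomial.aeval_def, Polynomial.eval₂_map]
        exact hP
    exact h1.restrictScalars A
  have h1 := alg_adjoin hLA
  exact hind.transcendental_adjoin (s := {i | i ≠ i0}) (i := i0) (by simp) (h1.isAlgebraic (x i0))

end Pool.Agent.H583_GP
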