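import Pool.Agent.H583_GP.GT
import Pool.Agent.H583_GP.Mero
import Pool.Agent.TH466.QG.Strong
import Pool.Agent.Y221.BD.Str

/-!
Subvarieties and entire curves of the varieties which are dominated by the covers.
-/

set_option autoImplicit false
set_option linter.overlappingInstances false
set_option linter.unusedSectionVars false

open FF IntermediateField Filter Pool.Agent.W602.GT Pool.Agent.TH466.QG

namespace Pool.Agent.H583_GP

/-- specializations -/
theorem spz {L : Type} [Field L] [Algebra ℂ L] {σ : Type} {x : σ → L}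
    (hx : IntermediateField.adjoin ℂ (Set.range x) = ⊤) {Θ : Set L} (hΘ : Θ.Finite) :
    ∃ H : MvPolynomial σ ℂ, MvPolynomial.aeval x H ≠ 0 ∧
      ∀ (E : Type) [Field E] [Algebra ℂ E] (z : σ → E),
        (∀ G : MvPolynomial σ ℂ, MvPolynomial.aeval x G = 0 → MvPolynomial.aeval z G = 0) →
        MvPolynomial.aeval z H ≠ 0 → ∃ S : Sp ℂ L E, (∀ i, S.T (x i) (z i)) ∧
          ∀ ϑ ∈ Θ, ∃ t, S.T ϑ t := by
  obtain ⟨H, hH, hG⟩ := exists_den hx hΘ
  refine ⟨H, hH, fun E _ _ z hz hzH => ?_⟩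
  refine ⟨⟨fun a b => (a, b) ∈ graph ℂ x z, fun h h' => add_mem h h', fun h h' => mul_mem h h',
    fun c => (graph ℂ x z).algebraMap_mem c, ?_⟩, ?_, ?_⟩
  · rintro x' ⟨G, H', h1, h2, h3, h4⟩
    simp only at h3 h4
    rw [zero_mul] at h3
    rw [hz G h3.symm] at h4
    exact (mul_eq_zero.1 h4).resolve_right h2
  · intro i
    refine ⟨MvPolynomial.X i, 1, ?_, ?_, ?_, ?_⟩
    · rw [map_one]; exact one_ne_zero
    · rw [map_one]; exact one_ne_zero
    · rw [map_one, mul_one, MvPolynomial.aeval_X]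
    · rw [map_one, mul_one, MvPolynomial.aeval_X]
  · intro ϑ hϑ
    obtain ⟨G, hG'⟩ := hG ϑ hϑ
    refine ⟨MvPolynomial.aeval z G / MvPolynomial.aeval z H, G, H, hH, hzH, hG', ?_⟩
    exact div_mul_cancel₀ _ hzH

theorem Sp.inv' {L E : Type} [Field L] [Field E] [Algebra ℂ L] [Algebra ℂ E] (S : Sp ℂ L E)
    {x : L} {x' : E} (h : S.T x x') (hinv : ∃ z, S.T x⁻¹ z) (hx : x ≠ 0) (e : ℤ) :
    S.T (x ^ e) (x' ^ e) := by
  have h1 := Pool.Agent.TH466.QG.Sp.inv S h hinv hx
  cases e with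
  | ofNat n =>
    rw [Int.ofNat_eq_natCast, zpow_natCast, zpow_natCast]
    exact S.pow h n
  | negSucc n =>
    rw [zpow_negSucc, zpow_negSucc, ← inv_pow, ← inv_pow]
    exact S.pow h1 _

variable {N r : ℕ} {B : Branch N r}

/-- the coordinates of a rational function field in the projective form -/
theorem coords_cons {L : Type} [Field L] [Algebra ℂ L] (x : Fin N → L) :
    coords ℂ (Fin.cons 1 x : Fin (N + 1) → L) = IntermediateField.adjoin ℂ (Set.range x) := by
  apply le_antisymm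
  · unfold Pool.Agent.W602.GT.coords
    rw [IntermediateField.adjoin_le_iff]
    have h1 : ∀ i : Fin (N + 1), (Fin.cons 1 x : Fin (N + 1) → L) i ∈
        IntermediateField.adjoin ℂ (Set.range x) := by
      intro i
      refine Fin.cases ?_ (fun s => ?_) i
      · exact one_mem _
      · exact IntermediateField.subset_adjoin ℂ _ ⟨s, rfl⟩
    rintro _ ⟨i, j, hj, rfl⟩
    exact div_mem (h1 i) (h1 j)
  · rw [IntermediateField.adjoin_le_iff]
    rintro _ ⟨i, rfl⟩
    refine IntermediateField.subset_adjoin ℂ _ ⟨i.succ, 0, ?_, ?_⟩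
    · simp
    · simp

theorem adjoin_self {L : Type} [Field L] [Algebra ℂ L] (x : Fin N → L) :
    IntermediateField.adjoin ℂ (Set.range fun i : Fin N =>
      (⟨x i, IntermediateField.subset_adjoin ℂ _ ⟨i, rfl⟩⟩ :
        IntermediateField.adjoin ℂ (Set.range x))) = ⊤ := by
  rw [eq_top_iff]
  rintro ⟨t, ht⟩ -
  induction ht using IntermediateField.adjoin_induction with
  | mem y hy =>
    obtain ⟨i, rfl⟩ := hy
    exact IntermediateField.subset_adjoin ℂ _ ⟨i, rfl⟩
  | algebraMap c =>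
    exact (IntermediateField.adjoin ℂ (Set.range fun i : Fin N =>
      (⟨x i, IntermediateField.subset_adjoin ℂ _ ⟨i, rfl⟩⟩ :
        IntermediateField.adjoin ℂ (Set.range x)))).algebraMap_mem c
  | add a b _ _ ha hb => exact add_mem ha hb
  | inv a _ ha => exact inv_mem ha
  | mul a b _ _ ha hb => exact mul_mem ha hb

/-- **Specializations of the maps to the covers.** -/
theorem spec_map {L : Type} [Field L] [Algebra ℂ L] {x : Fin N → L} {w : Fin r → L}
    (hM : B.Map x w) {M : ℕ} {y : Fin (M + 1) → L} (hy : y ≠ 0) (hgen : coords ℂ y = ⊤) :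
    ∃ R : MvPolynomial (Fin (M + 1)) ℂ, IsForm R ∧ val y R ≠ 0 ∧
      ∀ (E : Type) [Field E] [Algebra ℂ E] (z : Fin (M + 1) → E),
        (∀ G : MvPolynomial (Fin (M + 1)) ℂ, IsForm G → val y G = 0 → val z G = 0) →
        val z R ≠ 0 → ∃ i1, z i1 ≠ 0 ∧ ∃ (x' : Fin N → E) (w' : Fin r → E),
          (∀ i j, x' i ≠ algebraMap ℂ E (B.a i j)) ∧
          (∀ l, w' l ^ B.m l = ∏ i, ∏ j, (x' i - algebraMap ℂ E (B.a i j)) ^ B.e l i j) ∧
          ∀ m, IsAlgebraic (IntermediateField.adjoin ℂ (Set.range x')) (z m / z i1) := by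
  classical
  obtain ⟨i1, hi1'⟩ := Function.ne_iff.1 hy
  have hi1 : y i1 ≠ 0 := hi1'
  have := hM.alg
  let x0 : Fin N → IntermediateField.adjoin ℂ (Set.range x) := fun i =>
    ⟨x i, IntermediateField.subset_adjoin ℂ _ ⟨i, rfl⟩⟩
  have h0 : coords ℂ (Fin.cons 1 x0 : Fin (N + 1) → IntermediateField.adjoin ℂ (Set.range x)) = ⊤ := by
    rw [coords_cons]
    exact adjoin_self x
  obtain ⟨Θ2, hΘ2, halgs⟩ := alg_spec (k := ℂ) (K' := L) h0 (i0 := 0) (by simp)
    (fun m => y m / y i1)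
  obtain ⟨H, hH, hspread⟩ := spz (adjoin_norm hgen hi1)
    (Θ := (Set.range x) ∪ (Set.range w ∪ ((Set.range fun s : (i : Fin N) × Fin (B.p i) =>
      (x s.1 - algebraMap ℂ L (B.a s.1 s.2))⁻¹) ∪ (algebraMap _ L '' Θ2))))
    ((Set.finite_range _).union ((Set.finite_range _).union
      ((Set.finite_range _).union (hΘ2.image _))))
  refine ⟨MvPolynomial.X i1 * hz i1 H, ?_, ?_, ?_⟩
  · obtain ⟨d, hd⟩ := hz_form i1 H
    exact ⟨1 + d, (MvPolynomial.isHomogeneous_X ℂ i1).mul hd⟩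
  · change MvPolynomial.aeval y _ ≠ 0
    rw [map_mul, MvPolynomial.aeval_X]
    refine mul_ne_zero hi1 ?_
    change val y _ ≠ 0
    rw [val_hz H hi1]
    exact mul_ne_zero (pow_ne_zero _ hi1) hH
  intro E _ _ z hz hzR
  change MvPolynomial.aeval z _ ≠ 0 at hzR
  rw [map_mul, MvPolynomial.aeval_X] at hzR
  have hz1 : z i1 ≠ 0 := left_ne_zero_of_mul hzR
  refine ⟨i1, hz1, ?_⟩
  have hzH : MvPolynomial.aeval (fun i => z i / z i1) H ≠ 0 := by
    have h1 : val z (Pool.Agent.TH466.QG.hz i1 H) ≠ 0 := right_ne_zero_of_mul hzR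
    rw [val_hz H hz1] at h1
    exact right_ne_zero_of_mul h1
  have hsp : ∀ G : MvPolynomial (Fin (M + 1)) ℂ,
      MvPolynomial.aeval (fun i => y i / y i1) G = 0 →
      MvPolynomial.aeval (fun i => z i / z i1) G = 0 := by
    intro G hG
    have h1 : val y (Pool.Agent.TH466.QG.hz i1 G) = 0 := by
      rw [val_hz G hi1, hG, mul_zero]
    have h2 := hz _ (hz_form i1 G) h1
    rw [val_hz G hz1] at h2
    exact (mul_eq_zero.1 h2).resolve_left (pow_ne_zero _ hz1)
  obtain ⟨S, hSx, hSΘ⟩ := hspread E (fun i => z i / z i1) hsp hzH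
  have hx' : ∀ i, ∃ t, S.T (x i) t := fun i => hSΘ _ (Or.inl ⟨i, rfl⟩)
  choose x' hx' using hx'
  have hw' : ∀ i, ∃ t, S.T (w i) t := fun i => hSΘ _ (Or.inr (Or.inl ⟨i, rfl⟩))
  choose w' hw' using hw'
  have hinv : ∀ i j, ∃ t, S.T (x i - algebraMap ℂ L (B.a i j))⁻¹ t := fun i j =>
    hSΘ _ (Or.inr (Or.inr (Or.inl ⟨⟨i, j⟩, rfl⟩)))
  have hxa : ∀ i j, S.T (x i - algebraMap ℂ L (B.a i j)) (x' i - algebraMap ℂ E (B.a i j)) :=
    fun i j => S.sub (hx' i) (S.const _)
  have hne : ∀ i j, x i - algebraMap ℂ L (B.a i j) ≠ 0 := fun i j => sub_ne_zero.2 (hM.ne i j)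
  refine ⟨x', w', ?_, ?_, ?_⟩
  · intro i j
    exact sub_ne_zero.1 (S.ne_zero (hxa i j) (hinv i j) (hne i j))
  · intro l
    have h1 := S.pow (hw' l) (B.m l)
    rw [hM.eqn l] at h1
    refine S.ext h1 (S.prod _ fun i _ => S.prod _ fun j _ => ?_)
    exact Sp.inv' S (hxa i j) (hinv i j) (hne i j) _
  · intro m
    have h1 := halgs E S (fun ϑ hϑ => hSΘ _ (Or.inr (Or.inr (Or.inr ⟨ϑ, hϑ, rfl⟩))))
      (Fin.cons 1 x') (by
        intro i
        refine Fin.cases ?_ (fun s => ?_) i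
        · simp only [Fin.cons_zero, map_one]
          exact S.one
        · exact hx' s) (fun m => z m / z i1) hSx m
    rwa [coords_cons] at h1

/-- **Subvarieties.** -/
theorem strongly {α : Fin N → ℕ} {β : ∀ i, Fin (B.p i) → ℕ} (hg : B.NStrong α β)
    {L : Type} [Field L] [Algebra ℂ L] {x : Fin N → L} {w : Fin r → L}
    (hM : B.Map x w) {M : ℕ} {y : Fin (M + 1) → L} (hy : y ≠ 0) (hgen : coords ℂ y = ⊤) :
    StronglyGeneral ℂ y := by
  obtain ⟨R, hR, hyR, h⟩ := spec_map hM hy hgen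
  refine ⟨R, hR, hyR, ?_⟩
  intro E _ _ d z hz hzR hd1 htr
  obtain ⟨i1, hi1, x', w', h1, h2, h3⟩ := h E z hz.spec hzR
  have h4 : B.Map x' w' := by
    refine ⟨h1, h2, ?_⟩
    exact alg_over (k := ℂ) (E := E) (K := E) (adjoin_norm hz.gen hi1) _ h3
  exact general hg h4 htr hd1

open Pool.Agent.Y221.BD Pool.Agent.TH143.EL in
/-- **Entire curves.** -/
theorem brody {α : Fin N → ℕ} {β : ∀ i, Fin (B.p i) → ℕ} (hg : B.NGood α β)
    {L : Type} [Field L] [Algebra ℂ L] {x : Fin N → L} {w : Fin r → L}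
    (hM : B.Map x w) {M : ℕ} {y : Fin (M + 1) → L} (hy : y ≠ 0) (hgen : coords ℂ y = ⊤) :
    PseudoBrody y := by
  obtain ⟨R, hR, hyR, h⟩ := spec_map hM hy hgen
  refine ⟨R, hR, hyR, ?_⟩
  intro f hf t0
  by_contra hft
  have hmer : ∀ i, Meromorphic (f i) := fun i t =>
    ((hf.hol i).analyticAt t).meromorphicAt
  obtain ⟨z, hzdef⟩ : ∃ z : Fin (M + 1) → MK, z = fun i => cl (f i) (hmer i) := ⟨_, rfl⟩
  have hcont : ∀ G : MvPolynomial (Fin (M + 1)) ℂ,
      Continuous fun t => MvPolynomial.eval (fun i => f i t) G := fun G =>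
    (MvPolynomial.continuous_eval G).comp (continuous_pi fun i => (hf.hol i).continuous)
  have hvz : ∀ G, val z G = 0 ↔ ∀ t, MvPolynomial.eval (fun i => f i t) G = 0 := by
    intro G
    rw [hzdef, val_cl hmer G, cl_eq_zero]
    constructor
    · intro h t
      exact eq_of_codis (g := fun _ => 0) h (hcont G).continuousAt continuousAt_const
    · intro h
      exact Eventually.of_forall h
  have hzR : val z R ≠ 0 := fun h0 => hft ((hvz _).1 h0 t0)
  obtain ⟨i1, hi1, x', w', h1, h2, h3⟩ := h MK z (fun G hG hG0 => (hvz _).2 (hf.mem G hG hG0)) hzR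
  choose b hb using fun i => mero_const hg h1 h2 i
  have hbot : IntermediateField.adjoin ℂ (Set.range x') = ⊥ := by
    rw [eq_bot_iff, IntermediateField.adjoin_le_iff]
    rintro _ ⟨i, rfl⟩
    rw [SetLike.mem_coe, IntermediateField.mem_bot]
    exact ⟨b i, (hb i).symm⟩
  have hall : ∀ m, ∃ c : ℂ, z m = algebraMap ℂ MK c * z i1 := by
    intro m
    have h4 := h3 m
    rw [hbot] at h4
    obtain ⟨c, hc⟩ := const_of_alg (h4.restrictScalars ℂ)
    refine ⟨c, ?_⟩
    rw [← hc]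
    field_simp
  have hallf : ∀ m, ∃ c : ℂ, ∀ t, f m t = c * f i1 t := by
    intro m
    obtain ⟨c, hc⟩ := hall m
    refine ⟨c, fun t => ?_⟩
    rw [hzdef] at hc
    simp only at hc
    rw [← cl_const, cl_mul, cl_eq] at hc
    exact eq_of_codis (f := f m) (g := fun t => c * f i1 t) hc (hf.hol m).continuous.continuousAt
      ((continuous_const.mul (hf.hol i1).continuous).continuousAt)
  obtain ⟨i, j, s, s', hab⟩ := hf.nonconst
  obtain ⟨c, hc⟩ := hallf i
  obtain ⟨c', hc'⟩ := hallf j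
  apply hab
  rw [hc, hc, hc', hc']
  ring

end Pool.Agent.H583_GP
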